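import Pool.Agent.H431.LF.Fin

/-!
# Lifting all coordinates, with different losses
-/

set_option autoImplicit false

namespace Pool.Agent.H431.EC

open NumberField IsDedekindDomain Height Pool.Agent.Q290.NF IntermediateField Pool.Agent.H431.OC
open Pool.Agent.H431.MT Pool.Agent.H431.LF

/-- **lifting all coordinates** -/
theorem lift_allV {k : Type} [Field k] [NumberField k] {n : ℕ} {S : Fin n → St k}
    {κ κt : Fin n → ℝ} (hκt : ∀ i, 0 ≤ κt i) (hS : ∀ i, Reg (S i)) (δ : ℕ)
    (hgo : ∀ i, Go k (T0 k) (κt i) (S i) (κ i)) :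
    ∃ (D J : ℕ) (C : ℝ), 0 ≤ C ∧ ∀ (Ω : Type) [Field Ω] [IsAlgClosed Ω] [Algebra k Ω]
      (G : MvPolynomial (Fin n) Ω) (z0 : Fin n → Ω), MvPolynomial.eval z0 G ≠ 0 →
      (∀ i, G.degreeOf i ≤ δ) →
      ∀ (M : Type) [Field M] [NumberField M] [Algebra k M] (_ : M →ₐ[k] Ω) (b : M), b ≠ 0 →
      ∀ (t : Fin J → M), Function.Injective t → (∀ j, (T0 k).pt M b (t j)) →
      ∀ H0 : ℝ, (∀ j, Module.finrank ℚ M * H0 ≤ logHeight₁ (t j)) →
      ∃ (E : Type) (_ : Field E) (_ : NumberField E) (_ : Algebra M E) (_ : Algebra k E)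
        (_ : IsScalarTower k M E) (ψ : E →ₐ[k] Ω) (x : Fin n → E),
        Module.finrank M E ≤ D ∧ (∀ i, (S i).pt E (algebraMap M E b) (x i)) ∧
        MvPolynomial.eval (fun i => ψ (x i)) G ≠ 0 ∧
        Module.finrank M E * ((∑ i, κt i) * (Module.finrank ℚ M * H0) - DD M -
          sm (bw b fun _ => 0)) ≤
        ∑ i, (κ i * logHeight₁ (x i) - sm (ow (algebraMap M E b) ((S i).wt E (x i)))) - DD E -
          sm (bw (algebraMap M E b) fun _ => 0) + Module.finrank ℚ E * C := by
  classical
  choose m c f hc0 H using hgo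
  obtain ⟨J, hJ⟩ : ∃ J, J = ∑ i, f i δ + 1 := ⟨_, rfl⟩
  refine ⟨∏ i, m i, J, ∑ i, c i, Finset.sum_nonneg fun i _ => hc0 i, ?_⟩
  intro Ω _ _ _ G z0 hz0 hδ M _ _ _ φ b hb t ht hpt H0 hH
  have key : ∀ I : Finset (Fin n),
      ∃ (E : Type) (_ : Field E) (_ : NumberField E) (_ : Algebra M E) (_ : Algebra k E)
        (_ : IsScalarTower k M E) (ψ : E →ₐ[k] Ω) (x : Fin n → E),
        (∀ y : M, ψ (algebraMap M E y) = φ y) ∧
        Module.finrank M E ≤ ∏ i ∈ I, m i ∧
        (∀ i ∈ I, (S i).pt E (algebraMap M E b) (x i)) ∧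
        MvPolynomial.eval (fun i => if i ∈ I then ψ (x i) else z0 i) G ≠ 0 ∧
        Module.finrank M E * ((∑ i ∈ I, κt i) * (Module.finrank ℚ M * H0) - DD M -
          sm (bw b fun _ => 0)) ≤
        ∑ i ∈ I, (κ i * logHeight₁ (x i) -
          sm (ow (algebraMap M E b) ((S i).wt E (x i)))) - DD E -
          sm (bw (algebraMap M E b) fun _ => 0) + Module.finrank ℚ E * ∑ i ∈ I, c i := by
    intro I
    induction I using Finset.induction_on with
    | empty =>
      refine ⟨M, inferInstance, inferInstance, Algebra.id M, inferInstance, ?_, φ, fun _ => 0,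
        fun _ => rfl, ?_, ?_, ?_, ?_⟩
      · exact IsScalarTower.of_algebraMap_eq fun _ => rfl
      · rw [Module.finrank_self, Finset.prod_empty]
      · intro i hi
        exact absurd hi (Finset.notMem_empty i)
      · simpa using hz0
      · rw [Module.finrank_self, Finset.sum_empty, Finset.sum_empty, Finset.sum_empty]
        have e1 : algebraMap M M b = b := rfl
        rw [e1]
        push_cast
        linarith
    | insert a I ha ih =>
      obtain ⟨E, i1, i2, i3, i4, i5, ψ, x, hψ, hdeg, hptx, hG, hineq⟩ := ih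
      obtain ⟨T, hT, hTG⟩ := uni G hδ _ hG a
      obtain ⟨T', hT', H'⟩ := H a Ω δ T hT
      -- the choice of the point of the tower
      obtain ⟨j, hj⟩ : ∃ j, φ (t j) ∉ T' := by
        by_contra hcon
        push Not at hcon
        have h1 : (Finset.univ.image fun j => φ (t j)) ⊆ T' := by
          intro y hy
          rw [Finset.mem_image] at hy
          obtain ⟨j, -, rfl⟩ := hy
          exact hcon j
        have h2 := Finset.card_le_card h1
        have hinj : Function.Injective fun j => φ (t j) := fun a b h =>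
          ht (φ.toRingHom.injective h)
        rw [Finset.card_image_of_injective _ hinj, Finset.card_univ, Fintype.card_fin] at h2
        have h3 : f a δ ≤ ∑ i, f i δ :=
          Finset.single_le_sum (f := fun i => f i δ) (fun _ _ => Nat.zero_le _)
            (Finset.mem_univ a)
        omega
      have hbE : algebraMap M E b ≠ 0 := (map_ne_zero _).2 hb
      obtain ⟨F, j1, j2, j3, j4, j5, χ, y, hχ, hdegF, hpty, hyT, hdf⟩ :=
        H' E ψ (algebraMap M E b) (algebraMap M E (t j)) hbE (T0_ext (k := k) (hpt j))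
          (by rw [hψ]; exact hj)
      let _ : Algebra M F := ((algebraMap E F).comp (algebraMap M E)).toAlgebra
      have hstM : IsScalarTower M E F := IsScalarTower.of_algebraMap_eq fun _ => rfl
      have hstk : IsScalarTower k M F := IsScalarTower.of_algebraMap_eq fun z => by
        rw [IsScalarTower.algebraMap_apply k E F, IsScalarTower.algebraMap_apply k M E]
        rfl
      have hbF : algebraMap M F b = algebraMap E F (algebraMap M E b) := rfl
      have hbF0 : algebraMap E F (algebraMap M E b) ≠ 0 := (map_ne_zero _).2 hbE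
      refine ⟨F, j1, j2, inferInstance, j4, hstk, χ,
        Function.update (fun i => algebraMap E F (x i)) a y, ?_, ?_, ?_, ?_, ?_⟩
      · intro u
        have : algebraMap M F u = algebraMap E F (algebraMap M E u) := rfl
        rw [this, hχ, hψ]
      · rw [← Module.finrank_mul_finrank M E F, Finset.prod_insert ha, mul_comm]
        exact Nat.mul_le_mul hdegF hdeg
      · intro i hi
        by_cases hia : i = a
        · subst hia
          rw [Function.update_self]
          exact hpty
        · rw [Function.update_of_ne hia]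
          have hiI : i ∈ I := Finset.mem_of_mem_insert_of_ne hi hia
          exact (hS i).pt E F _ _ (hptx i hiI)
      · have h1 := hTG (χ y) hyT
        convert h1 using 3
        funext i
        by_cases hia : i = a
        · subst hia
          rw [if_pos (Finset.mem_insert_self _ _), Function.update_self, Function.update_self]
        · rw [Function.update_of_ne hia, Function.update_of_ne hia, hχ]
          by_cases hiI : i ∈ I
          · rw [if_pos hiI, if_pos (Finset.mem_insert_of_mem hiI)]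
          · rw [if_neg hiI, if_neg fun h => hiI (Finset.mem_of_mem_insert_of_ne h hia)]
      · rw [Finset.sum_insert ha, Finset.sum_insert ha, Finset.sum_insert ha,
          Function.update_self]
        have e1 : ∑ i ∈ I, (κ i * logHeight₁ (Function.update (fun i => algebraMap E F (x i))
            a y i) - sm (ow (algebraMap M F b) ((S i).wt F
              (Function.update (fun i => algebraMap E F (x i)) a y i)))) =
            ∑ i ∈ I, (κ i * logHeight₁ (algebraMap E F (x i)) - sm (ow (algebraMap M F b)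
              ((S i).wt F (algebraMap E F (x i))))) := by
          refine Finset.sum_congr rfl fun i hi => ?_
          rw [Function.update_of_ne fun h => ha (by rw [← h]; exact hi)]
        rw [e1]
        obtain ⟨q, hq⟩ : ∃ q : ℝ, q = (Module.finrank E F : ℝ) := ⟨_, rfl⟩
        obtain ⟨p, hp⟩ : ∃ p : ℝ, p = (Module.finrank M E : ℝ) := ⟨_, rfl⟩
        have hq0 : 0 ≤ q := by
          rw [hq]
          exact Nat.cast_nonneg _
        have hp0 : 0 ≤ p := by
          rw [hp]
          exact Nat.cast_nonneg _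
        have hMF : (Module.finrank M F : ℝ) = p * q := by
          rw [hp, hq]
          exact_mod_cast (Module.finrank_mul_finrank M E F).symm
        have hQF : (Module.finrank ℚ F : ℝ) = Module.finrank ℚ E * q := by
          rw [hq]
          exact_mod_cast (Module.finrank_mul_finrank ℚ E F).symm
        have h2 : q * ∑ i ∈ I, (κ i * logHeight₁ (x i) -
            sm (ow (algebraMap M E b) ((S i).wt E (x i)))) ≤
            ∑ i ∈ I, (κ i * logHeight₁ (algebraMap E F (x i)) - sm (ow (algebraMap M F b)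
              ((S i).wt F (algebraMap E F (x i))))) := by
          rw [Finset.mul_sum]
          refine Finset.sum_le_sum fun i _ => ?_
          have h3 := (hS i).sm_ext (M := E) (E := F) (algebraMap M E b) (x i)
          rw [hbF, ht_ext, ← hq]
          rw [← hq] at h3
          linarith
        unfold df at hdf
        rw [sm_bw hbF0 ((hS a).supp F y), ht_ext, ← hp, ← hq] at hdf
        have e2 : sm (bw (algebraMap M E b) ((T0 k).wt E (algebraMap M E (t j)))) =
          sm (bw (algebraMap M E b) fun _ => 0) := rfl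
        rw [e2] at hdf
        rw [← hp] at hineq
        rw [← hbF, hQF] at hdf
        rw [hMF, hQF]
        have h4 := mul_le_mul_of_nonneg_left hineq hq0
        have h5 := mul_le_mul_of_nonneg_left (hH j) (mul_nonneg hq0 (mul_nonneg (hκt a) hp0))
        nlinarith
  obtain ⟨E, i1, i2, i3, i4, i5, ψ, x, -, hdeg, hptx, hG, hineq⟩ := key Finset.univ
  refine ⟨E, i1, i2, i3, i4, i5, ψ, x, hdeg, fun i => hptx i (Finset.mem_univ i), ?_, ?_⟩
  · simpa using hG
  · exact hineq

theorem main_kV {k : Type} [Field k] [NumberField k] {n : ℕ} {S : Fin n → St k}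
    {κ κt : Fin n → ℝ} (hκt : ∀ i, 0 ≤ κt i) (h1 : 1 < ∑ i, κt i) (hS : ∀ i, Reg (S i))
    (hgo : ∀ i, Go k (T0 k) (κt i) (S i) (κ i)) (δ : ℕ) :
    ∃ r : ℕ, ∀ G : MvPolynomial (Fin n) k, G ≠ 0 → (∀ i, G.degreeOf i ≤ δ) → ∀ T : ℝ,
      ∃ (E : Type) (_ : Field E) (_ : NumberField E) (_ : Algebra k E) (b : E) (x : Fin n → E),
        b ≠ 0 ∧ Module.finrank k E ≤ r ∧ (∀ i, (S i).pt E b (x i)) ∧
        MvPolynomial.aeval x G ≠ 0 ∧
        Module.finrank ℚ E * T + DD E + sm (bw b fun _ => 0) +
          ∑ i, sm (ow b ((S i).wt E (x i))) ≤ ∑ i, κ i * logHeight₁ (x i) := by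
  classical
  obtain ⟨D, J, C, hC, H⟩ := lift_allV hκt hS δ hgo
  obtain ⟨c, hc, Htow⟩ := tower_points k J
  have hl : 0 < Real.log 2 := Real.log_pos (by norm_num)
  refine ⟨2 ^ J * D, fun G hG hδ T => ?_⟩
  let Ω := AlgebraicClosure k
  have hGΩ : MvPolynomial.map (algebraMap k Ω) G ≠ 0 := by
    intro h
    exact hG (MvPolynomial.map_injective _ (algebraMap k Ω).injective (by rw [h, map_zero]))
  obtain ⟨z0, hz0⟩ : ∃ z0, MvPolynomial.eval z0 (MvPolynomial.map (algebraMap k Ω) G) ≠ 0 := by
    by_contra hcon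
    push Not at hcon
    exact hGΩ (MvPolynomial.funext fun x => by rw [hcon x, map_zero])
  have hδΩ : ∀ i, (MvPolynomial.map (algebraMap k Ω) G).degreeOf i ≤ δ := by
    intro i
    refine le_trans ?_ (hδ i)
    rw [MvPolynomial.degreeOf_eq_sup, MvPolynomial.degreeOf_eq_sup]
    exact Finset.sup_mono (MvPolynomial.support_map_subset _ _)
  -- the choice of `m`
  obtain ⟨m0, hm0⟩ := exists_nat_gt ((((∑ i, κt i) + 1) * c + C + |T|) /
    (((∑ i, κt i) - 1) * (2 * Real.log 2)))
  rw [div_lt_iff₀ (mul_pos (by linarith) (by linarith))] at hm0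
  obtain ⟨m, hm⟩ : ∃ m, m = max 1 m0 := ⟨_, rfl⟩
  have hm' : 1 ≤ m := by omega
  have hmm : (m0 : ℝ) ≤ m := by exact_mod_cast (by omega : m0 ≤ m)
  obtain ⟨M, i1, i2, i3, b, t, hb, ht, hpt, hdeg, hht, hdisc⟩ := Htow m hm'
  obtain ⟨φ⟩ : Nonempty (M →ₐ[k] Ω) := ⟨IsAlgClosed.lift⟩
  obtain ⟨E, j1, j2, j3, j4, j5, ψ, x, hdegE, hptE, hGE, hineq⟩ :=
    H Ω _ z0 hz0 hδΩ M φ b hb t ht hpt _ hht
  refine ⟨E, j1, j2, j4, algebraMap M E b, x, (map_ne_zero _).2 hb, ?_, hptE, ?_, ?_⟩
  · rw [← Module.finrank_mul_finrank k M E]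
    exact Nat.mul_le_mul hdeg hdegE
  · intro h
    apply hGE
    have h1 : ψ (MvPolynomial.aeval x G) = 0 := by rw [h, map_zero]
    rw [← h1, MvPolynomial.eval_map]
    have h2 := MvPolynomial.hom_eval₂ G (algebraMap k E) ψ.toRingHom x
    rw [MvPolynomial.aeval_def]
    refine Eq.trans ?_ h2.symm
    congr 1
    ext y
    exact (ψ.commutes y).symm
  · obtain ⟨q, hq⟩ : ∃ q : ℝ, q = (Module.finrank ℚ M : ℝ) := ⟨_, rfl⟩
    obtain ⟨p, hp⟩ : ∃ p : ℝ, p = (Module.finrank M E : ℝ) := ⟨_, rfl⟩
    have hq0 : 0 < q := by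
      rw [hq]
      exact_mod_cast Module.finrank_pos
    have hp0 : 0 < p := by
      rw [hp]
      exact_mod_cast Module.finrank_pos
    have hQE : (Module.finrank ℚ E : ℝ) = q * p := by
      rw [hq, hp]
      exact_mod_cast (Module.finrank_mul_finrank ℚ M E).symm
    rw [← hp, ← hq, hQE] at hineq
    rw [← hq] at hdisc
    rw [hQE]
    rw [Finset.sum_sub_distrib] at hineq
    have h2 := mul_le_mul_of_nonneg_left hdisc hp0.le
    have h3 : ((∑ i, κt i) + 1) * c + C + |T| ≤ m * (((∑ i, κt i) - 1) * (2 * Real.log 2)) :=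
      hm0.le.trans (mul_le_mul_of_nonneg_right hmm (mul_pos (by linarith) (by linarith)).le)
    have h4 := mul_le_mul_of_nonneg_left h3 (mul_pos hq0 hp0).le
    have h5 : q * p * T ≤ q * p * |T| :=
      mul_le_mul_of_nonneg_left (le_abs_self T) (mul_pos hq0 hp0).le
    nlinarith

/-- a common base field -/
theorem commonV {K : Type} [Field K] [NumberField K] {n : ℕ}
    (Φ : Fin n → ∀ (k : Type) [Field k] [Algebra K k], St k) (κt κ : Fin n → ℝ)
    (hex : ∀ (i : Fin n) (k : Type) [Field k] [NumberField k] [Algebra K k],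
      ∃ (F : Type) (_ : Field F) (_ : NumberField F) (_ : Algebra k F) (_ : Algebra K F)
        (_ : IsScalarTower K k F), Go F (T0 F) (κt i) (Φ i F) (κ i))
    (hup : ∀ (i : Fin n) (k F : Type) [Field k] [NumberField k] [Field F] [NumberField F]
      [Algebra K k] [Algebra K F] [Algebra k F] [IsScalarTower K k F],
      Go k (T0 k) (κt i) (Φ i k) (κ i) → Go F (T0 F) (κt i) (Φ i F) (κ i)) :
    ∃ (k : Type) (_ : Field k) (_ : NumberField k) (_ : Algebra K k),
      ∀ i, Go k (T0 k) (κt i) (Φ i k) (κ i) := by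
  classical
  have key : ∀ I : Finset (Fin n), ∃ (k : Type) (_ : Field k) (_ : NumberField k)
      (_ : Algebra K k), ∀ i ∈ I, Go k (T0 k) (κt i) (Φ i k) (κ i) := by
    intro I
    induction I using Finset.induction_on with
    | empty =>
      exact ⟨K, inferInstance, inferInstance, Algebra.id K, fun i hi =>
        absurd hi (Finset.notMem_empty i)⟩
    | insert a I ha ih =>
      obtain ⟨k, i1, i2, i3, h⟩ := ih
      obtain ⟨F, j1, j2, j3, j4, j5, hF⟩ := hex a k
      refine ⟨F, j1, j2, j4, fun i hi => ?_⟩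
      by_cases hia : i = a
      · subst hia
        exact hF
      · exact hup i k F (h i (Finset.mem_of_mem_insert_of_ne hi hia))
  obtain ⟨k, i1, i2, i3, h⟩ := key Finset.univ
  exact ⟨k, i1, i2, i3, fun i => h i (Finset.mem_univ i)⟩

/-- points over extensions of bounded degree of `K` -/
theorem main_KV {K : Type} [Field K] [NumberField K] {n : ℕ}
    (Φ : Fin n → ∀ (k : Type) [Field k] [Algebra K k], St k) {κt κ : Fin n → ℝ}
    (hκt : ∀ i, 0 ≤ κt i) (h1 : 1 < ∑ i, κt i)
    (hreg : ∀ (i : Fin n) (k : Type) [Field k] [Algebra K k], Reg (Φ i k))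
    (hex : ∀ (i : Fin n) (k : Type) [Field k] [NumberField k] [Algebra K k],
      ∃ (F : Type) (_ : Field F) (_ : NumberField F) (_ : Algebra k F) (_ : Algebra K F)
        (_ : IsScalarTower K k F), Go F (T0 F) (κt i) (Φ i F) (κ i))
    (hup : ∀ (i : Fin n) (k F : Type) [Field k] [NumberField k] [Field F] [NumberField F]
      [Algebra K k] [Algebra K F] [Algebra k F] [IsScalarTower K k F],
      Go k (T0 k) (κt i) (Φ i k) (κ i) → Go F (T0 F) (κt i) (Φ i F) (κ i)) (δ : ℕ) :
    ∃ r : ℕ, ∀ G : MvPolynomial (Fin n) K, G ≠ 0 → (∀ i, G.degreeOf i ≤ δ) → ∀ T : ℝ,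
      ∃ (k : Type) (_ : Field k) (_ : NumberField k) (_ : Algebra K k) (E : Type) (_ : Field E)
        (_ : NumberField E) (_ : Algebra k E) (_ : Algebra K E) (_ : IsScalarTower K k E) (b : E)
        (x : Fin n → E),
        b ≠ 0 ∧ Module.finrank K E ≤ r ∧ (∀ i, (Φ i k).pt E b (x i)) ∧
        MvPolynomial.aeval x G ≠ 0 ∧
        Module.finrank ℚ E * T + DD E + sm (bw b fun _ => 0) +
          ∑ i, sm (ow b ((Φ i k).wt E (x i))) ≤ ∑ i, κ i * logHeight₁ (x i) := by
  obtain ⟨k, i1, i2, i3, hgo⟩ := commonV Φ κt κ hex hup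
  obtain ⟨r, hr⟩ := main_kV hκt h1 (fun i => hreg i k) hgo δ
  refine ⟨Module.finrank K k * r, fun G hG hδ T => ?_⟩
  have hGk : MvPolynomial.map (algebraMap K k) G ≠ 0 := by
    intro h
    exact hG (MvPolynomial.map_injective _ (algebraMap K k).injective (by rw [h, map_zero]))
  have hδk : ∀ i, (MvPolynomial.map (algebraMap K k) G).degreeOf i ≤ δ := by
    intro i
    classical
    refine le_trans ?_ (hδ i)
    rw [MvPolynomial.degreeOf_eq_sup, MvPolynomial.degreeOf_eq_sup]
    exact Finset.sup_mono (MvPolynomial.support_map_subset _ _)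
  obtain ⟨E, j1, j2, j3, b, x, hb, hdeg, hpt, hGx, hineq⟩ := hr _ hGk hδk T
  let _ : Algebra K E := ((algebraMap k E).comp (algebraMap K k)).toAlgebra
  have hst : IsScalarTower K k E := IsScalarTower.of_algebraMap_eq fun _ => rfl
  refine ⟨k, i1, i2, i3, E, j1, j2, j3, inferInstance, hst, b, x, hb, ?_, hpt, ?_, hineq⟩
  · rw [← Module.finrank_mul_finrank K k E]
    exact Nat.mul_le_mul_left _ hdeg
  · rw [MvPolynomial.aeval_map_algebraMap] at hGx
    exact hGx


end Pool.Agent.H431.EC
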