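import Pool.Agent.H431.EC.Cover
import Pool.Agent.H431.EC.LiftV
import Pool.Agent.H431.LF.Stage

/-!
# The stage of an étale covering of the line without three points
-/

set_option autoImplicit false

namespace Pool.Agent.H431.EC

open NumberField IsDedekindDomain Height Pool.Agent.Q290.NF IntermediateField Polynomial
open Pool.Agent.H431.OC Pool.Agent.H431.MT Pool.Agent.H431.LF

/-- points of the covering `B` of the line without `0`, `1`, `∞` -/
noncomputable def Cs (K : Type) [Field K] (B : Type) [CommRing B] [Algebra K[X] B] (k : Type)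
    [Field k] [Algebra K k] : St k where
  pt M _ _ _ _ t := t ≠ 0 ∧ t ≠ 1 ∧ ∃ χ : B →+* M, ∀ p : K[X],
    χ (algebraMap K[X] B p) = p.eval₂ ((algebraMap k M).comp (algebraMap K k)) t
  wt _ _ _ _ t v := w3 t v

theorem reg_Cs {K : Type} [Field K] {B : Type} [CommRing B] [Algebra K[X] B] (k : Type)
    [Field k] [Algebra K k] : Reg (Cs K B k) where
  supp M _ _ _ x := supp_w3 x
  nonneg M _ _ _ x v := w3_nonneg x v
  ext M E _ _ _ _ _ _ _ _ x v w e he h := by
    show w3 (algebraMap M E x) w ≤ e * w3 x v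
    rw [w3_ext v w he h x]
    have h1 : (1 : ℝ) ≤ e := by exact_mod_cast Nat.one_le_iff_ne_zero.2 he
    nlinarith [w3_nonneg x v]
  pt M E _ _ _ _ _ _ _ _ b x h := by
    obtain ⟨h0, h1, χ, hχ⟩ := h
    refine ⟨(_root_.map_ne_zero _).2 h0, fun h2 =>
      h1 ((algebraMap M E).injective (by rw [h2, map_one])), (algebraMap M E).comp χ, fun p => ?_⟩
    rw [RingHom.comp_apply, hχ, hom_eval₂]
    congr 1
    ext z
    show algebraMap M E (algebraMap k M (algebraMap K k z)) =
      algebraMap k E (algebraMap K k z)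
    rw [← IsScalarTower.algebraMap_apply k M E]

theorem up_Cs {K : Type} [Field K] {B : Type} [CommRing B] [Algebra K[X] B] {k F : Type}
    [Field k] [NumberField k] [Field F] [NumberField F] [Algebra K k] [Algebra K F] [Algebra k F]
    [IsScalarTower K k F] {κ κ' : ℝ} (h : Go k (T0 k) κ' (Cs K B k) κ) :
    Go F (T0 F) κ' (Cs K B F) κ := by
  refine Go.up (fun _ _ _ _ _ _ h => h) (fun _ _ _ _ _ => rfl) (fun M _ _ _ b x hx => ?_)
    (fun _ _ _ _ _ => rfl) h
  obtain ⟨h0, h1, χ, hχ⟩ := hx
  refine ⟨h0, h1, χ, fun p => ?_⟩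
  rw [hχ]
  congr 1
  ext z
  show algebraMap F M (algebraMap k F (algebraMap K k z)) = algebraMap F M (algebraMap K F z)
  rw [← IsScalarTower.algebraMap_apply K k F]

/-- a sum over primes of weight at least one -/
theorem sum_le_sm {M : Type} [Field M] [NumberField M] {g : HeightOneSpectrum (𝓞 M) → ℝ}
    (hg : (Function.support g).Finite) (hg0 : ∀ v, 0 ≤ g v)
    (R : Finset (HeightOneSpectrum (𝓞 M))) (hR : ∀ v ∈ R, 1 ≤ g v) :
    ∑ v ∈ R, ell v ≤ sm g := by
  classical
  have h2 : ∑ v ∈ R, ell v ≤ ∑ v ∈ R, g v * ell v := by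
    refine Finset.sum_le_sum fun v hv => ?_
    have h5 := hR v hv
    have h6 := ell_pos v
    nlinarith
  refine h2.trans ?_
  unfold sm
  rw [finsum_eq_sum_of_support_subset (s := (supp_mul hg).toFinset ∪ R)]
  · refine Finset.sum_le_sum_of_subset_of_nonneg Finset.subset_union_right fun v _ _ => ?_
    exact mul_nonneg (hg0 v) (ell_pos v).le
  · rw [Finset.coe_union, Set.Finite.coe_toFinset]
    exact Set.subset_union_left

/-- a sum of weights at most one -/
theorem sm_le_sum {M : Type} [Field M] [NumberField M] {g : HeightOneSpectrum (𝓞 M) → ℝ}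
    (R : Finset (HeightOneSpectrum (𝓞 M))) (h0 : ∀ v, v ∉ R → g v = 0) (h1 : ∀ v, g v ≤ 1) :
    sm g ≤ ∑ v ∈ R, ell v := by
  classical
  unfold sm
  rw [finsum_eq_sum_of_support_subset (s := R)]
  · refine Finset.sum_le_sum fun v _ => ?_
    have h5 := h1 v
    have h6 := ell_pos v
    nlinarith
  · intro v hv
    by_contra hc
    rw [Function.mem_support, h0 v hc, zero_mul] at hv
    exact hv rfl

/-- sums of the logarithms of the norms of the bad primes -/
theorem sum_bad {M : Type} [Field M] [NumberField M] {N : ℕ} (hN : N ≠ 0)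
    (R : Finset (HeightOneSpectrum (𝓞 M))) (hR : ∀ v ∈ R, ord v (N : M) ≠ 0) :
    ∑ v ∈ R, ell v ≤ Module.finrank ℚ M * Real.log N := by
  refine le_trans ?_ ((zeros_le (K := M) (N : M)).trans (height_nat hN))
  refine sum_le_sm (supp_zeros (N : M)) (fun v => le_max_left _ _) R fun v hv => ?_
  have h3 := nat_nonneg v N
  have h4 : 1 ≤ ord v (N : M) := by
    have := hR v hv
    omega
  exact le_max_of_le_right (by exact_mod_cast h4)

/-- **lifting the points of the towers to étale coverings** -/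
theorem go_Cs {K : Type} [Field K] [NumberField K] {B : Type} [CommRing B] [Algebra K[X] B]
    (hB : IsEtaleCover K B) {k : Type} [Field k] [NumberField k] [Algebra K k] (κ : ℝ) :
    Go k (T0 k) κ (Cs K B k) κ := by
  classical
  obtain ⟨N, m, hN, hm, H⟩ := lift_cover hB
  have hl : 0 ≤ Real.log ((2 * N : ℕ) : ℝ) := Real.log_natCast_nonneg _
  have hl' : 0 ≤ Real.log ((m.factorial : ℕ) : ℝ) := Real.log_natCast_nonneg _
  refine ⟨m, Real.log ((2 * N : ℕ) : ℝ) + Real.log ((m.factorial : ℕ) : ℝ), fun n => n,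
    by linarith, ?_⟩
  intro Ω _ _ _ n T hT
  refine ⟨T, hT, fun M _ _ _ φ b t hb hpt ht => ?_⟩
  obtain ⟨ht0, ht1, -, hunit⟩ := hpt
  let _ : Algebra K M := ((algebraMap k M).comp (algebraMap K k)).toAlgebra
  obtain ⟨E, g1, g2, g3, ψ, χ, hψ, hχ, hdeg, hram⟩ := H M Ω φ.toRingHom t ht0 ht1
  let _ : Algebra k E := ((algebraMap M E).comp (algebraMap k M)).toAlgebra
  have hst : IsScalarTower k M E := IsScalarTower.of_algebraMap_eq fun _ => rfl
  have hbE : algebraMap M E b ≠ 0 := (_root_.map_ne_zero _).2 hb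
  have htE : algebraMap M E t ≠ 0 := (_root_.map_ne_zero _).2 ht0
  refine ⟨E, g1, g2, g3, inferInstance, hst, { ψ with commutes' := fun z => ?_ },
    algebraMap M E t, hψ, hdeg, ?_, ?_, ?_⟩
  · show ψ (algebraMap M E (algebraMap k M z)) = _
    rw [hψ]
    exact φ.commutes z
  · refine ⟨htE, fun h => ht1 ((algebraMap M E).injective (by rw [h, map_one])), χ, fun p => ?_⟩
    rw [hχ, aeval_def, hom_eval₂]
    rfl
  · show ψ (algebraMap M E t) ∉ T
    rw [hψ]
    exact ht
  · -- the defect
    obtain ⟨q, hq⟩ : ∃ q : ℝ, q = (Module.finrank M E : ℝ) := ⟨_, rfl⟩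
    have hq0 : 0 < q := by
      rw [hq]
      exact_mod_cast Module.finrank_pos
    have h2N : 2 * N ≠ 0 := mul_ne_zero two_ne_zero hN
    have hVfin : ({v : HeightOneSpectrum (𝓞 M) | ord v b ≠ 0 ∨
        ord v ((2 * N : ℕ) : M) ≠ 0}).Finite :=
      (fin_ord hb).union (fin_ord (Nat.cast_ne_zero.2 h2N))
    have hWfin : ({w : HeightOneSpectrum (𝓞 E) | ord w (algebraMap M E b) ≠ 0 ∨
        ord w ((2 * N : ℕ) : E) ≠ 0}).Finite :=
      (fin_ord hbE).union (fin_ord (Nat.cast_ne_zero.2 h2N))
    have hgoodM : ∀ v : HeightOneSpectrum (𝓞 M), v ∉ hVfin.toFinset → ord v b = 0 ∧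
        ord v (N : M) = 0 ∧ ord v t = 0 ∧ ord v (t - 1) = 0 := by
      intro v hv
      rw [Set.Finite.mem_toFinset, Set.mem_ofPred_eq, not_or, not_not, not_not] at hv
      obtain ⟨h1, h2⟩ := hv
      have h3 := Pool.Agent.H431.KU.ord_dvd h2N (dvd_mul_right 2 N) v h2
      have h4 := Pool.Agent.H431.KU.ord_dvd h2N (dvd_mul_left N 2) v h2
      have h5 := hunit v (by exact_mod_cast h3) h1
      exact ⟨h1, h4, h5.1, h5.2⟩
    have hdisc := disc_add_le (k := M) (F := E) hVfin.toFinset (fun P hP => by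
      refine ⟨P.under (𝓞 M), ?_, rfl⟩
      by_contra hc
      obtain ⟨h1, h2, h3, h4⟩ := hgoodM _ hc
      exact hram _ h2 h3 h4 P rfl hP) hWfin.toFinset (fun w hw => by
      refine ⟨w.under (𝓞 M), ?_, rfl⟩
      rw [Set.Finite.mem_toFinset, Set.mem_ofPred_eq] at hw ⊢
      have hl : w.asIdeal.LiesOver (w.under (𝓞 M)).asIdeal := ⟨rfl⟩
      rcases hw with hw | hw
      · left
        intro h0
        apply hw
        rw [ord_above _ w hl, h0, mul_zero]
      · right
        intro h0
        apply hw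
        have h1 := ord_above _ w hl ((2 * N : ℕ) : M)
        rw [h0, mul_zero, map_natCast] at h1
        exact h1)
    -- the primes of `M`
    have hV : ∑ v ∈ hVfin.toFinset, ell v ≤ sm (bw b fun _ => 0) +
        Module.finrank ℚ M * Real.log ((2 * N : ℕ) : ℝ) := by
      rw [← Finset.sum_filter_add_sum_filter_not hVfin.toFinset (fun v => ord v b ≠ 0)]
      refine add_le_add ?_ ?_
      · refine sum_le_sm (supp_bw hb supp_zero) (bw_nonneg fun _ => le_rfl) _ fun v hv => ?_
        rw [bw_one (Finset.mem_filter.1 hv).2]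
      · refine sum_bad h2N _ fun v hv => ?_
        obtain ⟨h1, h2⟩ := Finset.mem_filter.1 hv
        rw [Set.Finite.mem_toFinset, Set.mem_ofPred_eq] at h1
        exact h1.resolve_left h2
    have hW : sm (bw (algebraMap M E b) ((Cs K B k).wt E (algebraMap M E t))) ≤
        ∑ w ∈ hWfin.toFinset, ell w := by
      refine sm_le_sum _ (fun w hw => ?_) (bw_le le_rfl fun w => w3_le_one w htE)
      rw [Set.Finite.mem_toFinset, Set.mem_ofPred_eq, not_or, not_not, not_not] at hw
      obtain ⟨h1, h2⟩ := hw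
      obtain ⟨v, e, he, hvw⟩ := below (M := M) w
      have he' : (e : ℤ) ≠ 0 := by exact_mod_cast he
      rw [bw_eq h1]
      show w3 (algebraMap M E t) w = 0
      rw [w3_ext v w he hvw t]
      rw [hvw] at h1
      have h3 : ord v ((2 * N : ℕ) : M) = 0 := by
        have h4 := hvw ((2 * N : ℕ) : M)
        rw [map_natCast, h2] at h4
        exact (mul_eq_zero.1 h4.symm).resolve_left he'
      have h5 := hgoodM v (by
        rw [Set.Finite.mem_toFinset, Set.mem_ofPred_eq, not_or, not_not, not_not]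
        exact ⟨(mul_eq_zero.1 h1).resolve_left he', h3⟩)
      unfold w3
      rw [h5.2.2.1, h5.2.2.2, po_nonpos le_rfl, po_nonpos (by simp)]
      norm_num
    have hfac : Real.log (((Module.finrank M E).factorial : ℕ) : ℝ) ≤
        Real.log ((m.factorial : ℕ) : ℝ) := by
      refine Real.log_le_log (by exact_mod_cast Nat.factorial_pos _) ?_
      exact_mod_cast Nat.factorial_le hdeg
    have hE : (Module.finrank ℚ E : ℝ) = Module.finrank ℚ M * Module.finrank M E := by
      exact_mod_cast (Module.finrank_mul_finrank ℚ M E).symm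
    have hwt : (T0 k).wt M t = fun _ => 0 := rfl
    unfold df
    rw [ht_ext, hwt, hE, ← hq]
    rw [← hq] at hdisc
    have e1 : DD E = Real.log |(discr E : ℝ)| := rfl
    have e2 : DD M = Real.log |(discr M : ℝ)| := rfl
    rw [e1, e2]
    have hV' := mul_le_mul_of_nonneg_left hV hq0.le
    have hM0 : (0 : ℝ) ≤ Module.finrank ℚ M := Nat.cast_nonneg _
    have hf' := mul_le_mul_of_nonneg_left hfac (mul_nonneg hq0.le hM0)
    have hdisc' : Real.log |(discr E : ℝ)| + ∑ w ∈ hWfin.toFinset, ell w ≤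
      q * Real.log |(discr M : ℝ)| + q * ∑ v ∈ hVfin.toFinset, ell v +
      q * (Module.finrank ℚ M * Real.log (((Module.finrank M E).factorial : ℕ) : ℝ)) := hdisc
    linarith

end Pool.Agent.H431.EC
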