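import Pool.Agent.H431.EC.Unram
import Pool.Agent.H431.OC.Base

/-!
# Finite étale coverings of the line without `0`, `1`, `∞`, and their points
-/

set_option autoImplicit false

namespace Pool.Agent.H431.EC

open NumberField IsDedekindDomain Height Pool.Agent.Q290.NF IntermediateField Polynomial
open Pool.Agent.H431.OC

/-- `B` is a finite free algebra over `K[X]`, étale away from `X = 0` and `X = 1`: there are
`y_i ∈ B`, monic polynomials `h_i` over `K[X]` with `h_i(y_i) = 0` and `D_i ∈ K[X]` such that
`D_i B ⊆ K[X][y_i]`, `D_i ∈ h_i'(y_i) B` (so that `B` is standard étale where `D_i ≠ 0`), and a power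
of `X (X - 1)` lies in the ideal generated by the `D_i`. -/
structure IsEtaleCover (K : Type) [Field K] (B : Type) [CommRing B] [Algebra K[X] B] : Prop where
  finite : Module.Finite K[X] B
  free : Module.Free K[X] B
  nontrivial : Nontrivial B
  etale : ∃ (s : ℕ) (y : Fin s → B) (h : Fin s → K[X][X]) (D : Fin s → K[X]) (m : ℕ),
    (∀ i, (h i).Monic ∧ aeval (y i) (h i) = 0) ∧
    (∀ i (z : B), ∃ g : K[X][X], algebraMap K[X] B (D i) * z = aeval (y i) g) ∧
    (∀ i, ∃ u : B, algebraMap K[X] B (D i) = aeval (y i) (derivative (h i)) * u) ∧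
    (X * (X - 1)) ^ m ∈ Ideal.span (Set.range D)

section val

variable {M : Type} [Field M] [NumberField M]

/-- roots of polynomials with integral coefficients are integral -/
theorem val_root (P : HeightOneSpectrum (𝓞 M)) (x : M) (q : M[X]) (hq : q.Monic)
    (hc : ∀ j, P.valuation M (q.coeff j) ≤ 1) (h : aeval x q = 0) : P.valuation M x ≤ 1 := by
  by_contra hx
  rw [not_le] at hx
  have hx0 : 0 < P.valuation M x := zero_lt_one.trans hx
  rw [aeval_eq_sum_range, Finset.sum_range_succ, hq.coeff_natDegree, one_smul] at h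
  have h1 : x ^ q.natDegree = -∑ j ∈ Finset.range q.natDegree, q.coeff j • x ^ j := by
    linear_combination h
  have h2 : P.valuation M (∑ j ∈ Finset.range q.natDegree, q.coeff j • x ^ j) <
      P.valuation M x ^ q.natDegree := by
    refine Valuation.map_sum_lt _ (pow_ne_zero _ hx0.ne') fun j hj => ?_
    rw [Finset.mem_range] at hj
    rw [smul_eq_mul, map_mul, map_pow]
    refine lt_of_le_of_lt (mul_le_of_le_one_left' (hc j)) ?_
    exact pow_lt_pow_right₀ hx hj
  have h3 : P.valuation M x ^ q.natDegree =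
      P.valuation M (∑ j ∈ Finset.range q.natDegree, q.coeff j • x ^ j) := by
    rw [← map_pow, h1, Valuation.map_neg]
  rw [← h3] at h2
  exact lt_irrefl _ h2

/-- values of polynomials -/
theorem val_aeval {R : Type} [CommRing R] [Algebra R M] (P : HeightOneSpectrum (𝓞 M)) (x : M)
    (hx : P.valuation M x ≤ 1) (q : R[X])
    (hc : ∀ j, P.valuation M (algebraMap R M (q.coeff j)) ≤ 1) :
    P.valuation M (aeval x q) ≤ 1 := by
  rw [aeval_eq_sum_range]
  refine Valuation.map_sum_le _ fun j _ => ?_
  rw [Algebra.smul_def, map_mul, map_pow]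
  exact mul_le_one' (hc j) (pow_le_one' hx j)

end val

/-- the coefficients of a finite set of polynomials -/
noncomputable def coefs {K : Type} [Field K] (Q : Finset K[X]) : Finset K := by
  classical
  exact Q.biUnion fun p => p.support.image p.coeff

theorem ev_int {K : Type} [Field K] {M : Type} [Field M] [NumberField M] [Algebra K M]
    {Q : Finset K[X]} {v : HeightOneSpectrum (𝓞 M)}
    (hv : ∀ a ∈ coefs Q, ord v (algebraMap K M a) = 0) {t : M} (ht : v.valuation M t ≤ 1)
    {p : K[X]} (hp : p ∈ Q) : v.valuation M (aeval t p) ≤ 1 := by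
  classical
  refine val_aeval v t ht p fun j => ?_
  by_cases hj : p.coeff j = 0
  · rw [hj, map_zero, map_zero]
    exact zero_le_one
  · rw [← ord_nonneg_iff]
    refine (hv _ ?_).ge
    unfold coefs
    rw [Finset.mem_biUnion]
    exact ⟨p, hp, Finset.mem_image.2 ⟨j, mem_support_iff.2 hj, rfl⟩⟩

theorem val_le_above {M E : Type} [Field M] [NumberField M] [Field E] [NumberField E]
    [Algebra M E] (v : HeightOneSpectrum (𝓞 M)) (w : HeightOneSpectrum (𝓞 E))
    (hw : w.asIdeal.LiesOver v.asIdeal) {x : M} (h : v.valuation M x ≤ 1) :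
    w.valuation E (algebraMap M E x) ≤ 1 := by
  rw [← HeightOneSpectrum.valuation_liesOver E v w]
  exact pow_le_one' h _

theorem val_one_above {M E : Type} [Field M] [NumberField M] [Field E] [NumberField E]
    [Algebra M E] (v : HeightOneSpectrum (𝓞 M)) (w : HeightOneSpectrum (𝓞 E))
    (hw : w.asIdeal.LiesOver v.asIdeal) {x : M} (h : v.valuation M x = 1) :
    w.valuation E (algebraMap M E x) = 1 := by
  rw [← HeightOneSpectrum.valuation_liesOver E v w, h, one_pow]

/-- **lifting points to étale coverings** -/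
theorem lift_cover {K : Type} [Field K] [NumberField K] {B : Type} [CommRing B] [Algebra K[X] B]
    (hB : IsEtaleCover K B) : ∃ N m : ℕ, N ≠ 0 ∧ m ≠ 0 ∧ ∀ (M : Type) [Field M] [NumberField M]
      [Algebra K M] (Ω : Type) [Field Ω] [IsAlgClosed Ω] (φ : M →+* Ω) (t : M), t ≠ 0 → t ≠ 1 →
    ∃ (E : Type) (_ : Field E) (_ : NumberField E) (_ : Algebra M E) (ψ : E →+* Ω)
      (χ : B →+* E), (∀ z : M, ψ (algebraMap M E z) = φ z) ∧
      (∀ p : K[X], χ (algebraMap K[X] B p) = algebraMap M E (aeval t p)) ∧
      Module.finrank M E ≤ m ∧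
      ∀ (v : HeightOneSpectrum (𝓞 M)), ord v (N : M) = 0 → ord v t = 0 → ord v (t - 1) = 0 →
        ∀ P : HeightOneSpectrum (𝓞 E), P.asIdeal.comap (algebraMap (𝓞 M) (𝓞 E)) = v.asIdeal →
          ¬ P.asIdeal ∣ differentIdeal (𝓞 M) (𝓞 E) := by
  classical
  have i1 := hB.finite
  have i2 := hB.free
  have i3 := hB.nontrivial
  obtain ⟨s, y, h, D, μ, hh, hgen, hder, hspan⟩ := hB.etale
  choose u hu using hder
  -- the integral equations of the `u i`
  have hint : ∀ i, ∃ q : K[X][X], q.Monic ∧ aeval (u i) q = 0 := by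
    intro i
    obtain ⟨q, hq, hq'⟩ := Algebra.IsIntegral.isIntegral (R := K[X]) (u i)
    exact ⟨q, hq, hq'⟩
  choose q hq hq' using hint
  rw [Ideal.mem_span_range_iff_exists_fun] at hspan
  obtain ⟨c, hc⟩ := hspan
  obtain ⟨Q, hQ⟩ : ∃ Q : Finset K[X], Q = (Finset.univ.image D ∪ Finset.univ.image c) ∪
    (Finset.univ.biUnion (fun i => (h i).support.image (h i).coeff) ∪
      Finset.univ.biUnion (fun i => (q i).support.image (q i).coeff)) := ⟨_, rfl⟩
  have hQD : ∀ i, D i ∈ Q := by
    intro i
    rw [hQ]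
    simp
  have hQc : ∀ i, c i ∈ Q := by
    intro i
    rw [hQ]
    simp
  have hQh : ∀ i j, (h i).coeff j = 0 ∨ (h i).coeff j ∈ Q := by
    intro i j
    by_cases h0 : (h i).coeff j = 0
    · exact Or.inl h0
    · right
      rw [hQ, Finset.mem_union, Finset.mem_union (s := Finset.univ.biUnion _)]
      right; left
      rw [Finset.mem_biUnion]
      exact ⟨i, Finset.mem_univ _, Finset.mem_image.2 ⟨j, mem_support_iff.2 h0, rfl⟩⟩
  have hQq : ∀ i j, (q i).coeff j = 0 ∨ (q i).coeff j ∈ Q := by
    intro i j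
    by_cases h0 : (q i).coeff j = 0
    · exact Or.inl h0
    · right
      rw [hQ, Finset.mem_union, Finset.mem_union (s := Finset.univ.biUnion _)]
      right; right
      rw [Finset.mem_biUnion]
      exact ⟨i, Finset.mem_univ _, Finset.mem_image.2 ⟨j, mem_support_iff.2 h0, rfl⟩⟩
  obtain ⟨N, hN, HN⟩ := exists_bad (k := K) (coefs Q)
  refine ⟨N, Module.finrank K[X] B, hN, Module.finrank_pos.ne', ?_⟩
  intro M _ _ _ Ω _ _ φ t ht0 ht1
  -- the algebra of the fibre
  let _ : Algebra K[X] M := (aeval t : K[X] →ₐ[K] M).toRingHom.toAlgebra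
  have hev : ∀ p : K[X], algebraMap K[X] M p = aeval t p := fun _ => rfl
  have hfin : Module.finrank M (TensorProduct K[X] M B) = Module.finrank K[X] B :=
    Module.finrank_baseChange
  have hpos : 0 < Module.finrank K[X] B := Module.finrank_pos
  have hnt : Nontrivial (TensorProduct K[X] M B) :=
    Module.nontrivial_of_finrank_pos (R := M) (by rw [hfin]; exact hpos)
  obtain ⟨I, hI⟩ := Ideal.exists_maximal (TensorProduct K[X] M B)
  let E := TensorProduct K[X] M B ⧸ I
  let iE : Field E := Ideal.Quotient.field I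
  let π : TensorProduct K[X] M B →ₐ[M] E := Ideal.Quotient.mkₐ M I
  have hπ : Function.Surjective π := Ideal.Quotient.mkₐ_surjective M I
  have hfE : Module.Finite M E := Module.Finite.of_surjective π.toLinearMap hπ
  have nE : NumberField E := NumberField.of_module_finite M E
  have hdegE : Module.finrank M E ≤ Module.finrank K[X] B := by
    rw [← hfin]
    exact LinearMap.finrank_le_finrank_of_surjective (f := π.toLinearMap) hπ
  let χ : B →+* E := π.toRingHom.comp
    (Algebra.TensorProduct.includeRight : B →ₐ[K[X]] TensorProduct K[X] M B).toRingHom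
  have hχ : ∀ p : K[X], χ (algebraMap K[X] B p) = algebraMap M E (aeval t p) := by
    intro p
    show π (1 ⊗ₜ[K[X]] algebraMap K[X] B p) = _
    rw [Algebra.algebraMap_eq_smul_one, ← TensorProduct.smul_tmul, Algebra.smul_def, mul_one, hev]
    have : (aeval t p ⊗ₜ[K[X]] (1 : B) : TensorProduct K[X] M B) =
      algebraMap M (TensorProduct K[X] M B) (aeval t p) := rfl
    rw [this, π.commutes]
  -- the field `E` is generated by the values of `χ`
  have hspanE : ∀ z : E, z ∈ Submodule.span M (Set.range χ) := by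
    intro z
    obtain ⟨x, rfl⟩ := hπ z
    induction x using TensorProduct.induction_on with
    | zero => rw [map_zero]; exact zero_mem _
    | tmul a b =>
      have e1 : (a ⊗ₜ[K[X]] b : TensorProduct K[X] M B) = a • (1 ⊗ₜ[K[X]] b) := by
        rw [TensorProduct.smul_tmul', smul_eq_mul, mul_one]
      rw [e1, map_smul]
      exact Submodule.smul_mem _ _ (Submodule.subset_span ⟨b, rfl⟩)
    | add x y hx hy => rw [map_add]; exact add_mem hx hy
  obtain ⟨ψ, hψ⟩ : ∃ ψ : E →+* Ω, ∀ z : M, ψ (algebraMap M E z) = φ z := by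
    let _ : Algebra M Ω := φ.toAlgebra
    let ψ₀ : E →ₐ[M] Ω := IsAlgClosed.lift
    exact ⟨ψ₀.toRingHom, fun z => ψ₀.commutes z⟩
  refine ⟨E, iE, nE, inferInstance, ψ, χ, hψ, hχ, hdegE, ?_⟩
  intro v hvN hvt hvt1 P hP
  have hw : P.asIdeal.LiesOver v.asIdeal := ⟨hP.symm⟩
  have hgood := HN M v hvN
  have hvt' : v.valuation M t = 1 := (ord_eq_zero_iff v ht0).1 hvt
  have hvt1' : v.valuation M (t - 1) = 1 := (ord_eq_zero_iff v (sub_ne_zero.2 ht1)).1 hvt1
  -- the choice of `i`
  obtain ⟨i, hi⟩ : ∃ i, v.valuation M (aeval t (D i)) = 1 := by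
    by_contra hcon
    push Not at hcon
    have h1 : ∀ i, v.valuation M (aeval t (D i)) < 1 := fun i =>
      lt_of_le_of_ne (ev_int hgood hvt'.le (hQD i)) (hcon i)
    have h2 := congrArg (fun p => v.valuation M (aeval t p)) hc
    simp only [map_sum, map_mul, map_pow, map_sub, aeval_X, map_one] at h2
    rw [hvt', hvt1', mul_one, one_pow] at h2
    have h3 : v.valuation M (∑ i, aeval t (c i) * aeval t (D i)) < 1 := by
      refine Valuation.map_sum_lt _ one_ne_zero fun i _ => ?_
      rw [map_mul]
      exact lt_of_le_of_lt (mul_le_of_le_one_left' (ev_int hgood hvt'.le (hQc i))) (h1 i)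
    rw [h2] at h3
    exact lt_irrefl _ h3
  have hDi0 : aeval t (D i) ≠ 0 := by
    intro h0
    rw [h0, map_zero] at hi
    exact zero_ne_one hi
  -- evaluation of polynomials over `K[X]`
  have hevE : ∀ (z : B) (g : K[X][X]), χ (aeval z g) =
      aeval (χ z) (g.map (algebraMap K[X] M)) := by
    intro z g
    rw [aeval_def, hom_eval₂, aeval_def, eval₂_map]
    congr 1
    ext p
    · show χ (algebraMap K[X] B (C p)) = algebraMap M E (algebraMap K[X] M (C p))
      rw [hχ]
      rfl
    · show χ (algebraMap K[X] B X) = algebraMap M E (algebraMap K[X] M X)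
      rw [hχ]
      rfl
  have hcoef : ∀ (g : K[X][X]), (∀ j, g.coeff j = 0 ∨ g.coeff j ∈ Q) → ∀ j,
      v.valuation M ((g.map (algebraMap K[X] M)).coeff j) ≤ 1 := by
    intro g hg j
    rw [coeff_map, hev]
    rcases hg j with h0 | h0
    · rw [h0, map_zero, map_zero]
      exact zero_le_one
    · exact ev_int hgood hvt'.le h0
  have hβ : P.valuation E (χ (y i)) ≤ 1 := by
    refine val_root P _ (((h i).map (algebraMap K[X] M)).map (algebraMap M E))
      (((hh i).1.map _).map _) (fun j => ?_) ?_
    · rw [coeff_map]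
      exact val_le_above v P hw (hcoef _ (hQh i) j)
    · rw [aeval_map_algebraMap, ← hevE, (hh i).2, map_zero]
  have hu1 : P.valuation E (χ (u i)) ≤ 1 := by
    refine val_root P _ (((q i).map (algebraMap K[X] M)).map (algebraMap M E))
      (((hq i).map _).map _) (fun j => ?_) ?_
    · rw [coeff_map]
      exact val_le_above v P hw (hcoef _ (hQq i) j)
    · rw [aeval_map_algebraMap, ← hevE, hq' i, map_zero]
  refine unram_of_deriv v P hP (χ (y i)) ((h i).map (algebraMap K[X] M)) ((hh i).1.map _)
    (hcoef _ (hQh i)) ?_ ?_ ?_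
  · rw [← hevE, (hh i).2, map_zero]
  · -- generation
    rw [eq_top_iff]
    intro z _
    have h1 := hspanE z
    refine Submodule.span_induction (p := fun x _ => x ∈ M⟮χ (y i)⟯) ?_ (zero_mem _)
      (fun _ _ _ _ h h' => add_mem h h') (fun a x _ hx => ?_) h1
    · rintro x ⟨b, rfl⟩
      obtain ⟨g, hg⟩ := hgen i b
      have h2 := congrArg χ hg
      rw [map_mul, hχ, hevE] at h2
      have h3 : algebraMap M E (aeval t (D i)) ≠ 0 := (_root_.map_ne_zero _).2 hDi0
      have h4 : χ b = (algebraMap M E (aeval t (D i)))⁻¹ *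
          aeval (χ (y i)) (g.map (algebraMap K[X] M)) := by
        rw [← h2, inv_mul_cancel_left₀ h3]
      rw [h4]
      refine mul_mem (inv_mem (IntermediateField.algebraMap_mem _ _)) ?_
      rw [aeval_eq_sum_range]
      refine sum_mem fun j _ => ?_
      rw [Algebra.smul_def]
      exact mul_mem (IntermediateField.algebraMap_mem _ _)
        (pow_mem (mem_adjoin_simple_self M (χ (y i))) _)
    · rw [Algebra.smul_def]
      exact mul_mem (IntermediateField.algebraMap_mem _ _) hx
  · -- the derivative
    have h1 := congrArg χ (hu i)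
    rw [map_mul, hχ, hevE, ← derivative_map] at h1
    have h2 : P.valuation E (algebraMap M E (aeval t (D i))) = 1 := val_one_above v P hw hi
    rw [h1, map_mul] at h2
    have h3 : P.valuation E (aeval (χ (y i))
        (derivative ((h i).map (algebraMap K[X] M)))) ≤ 1 := by
      refine val_aeval P _ hβ _ fun j => ?_
      refine val_le_above v P hw ?_
      rw [coeff_derivative, map_mul]
      refine mul_le_one' (hcoef _ (hQh i) _) ?_
      rw [← ord_nonneg_iff]
      have := nat_nonneg v (j + 1)
      push_cast at this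
      exact this
    refine le_antisymm h3 ?_
    rw [← h2]
    exact mul_le_of_le_one_right' hu1

end Pool.Agent.H431.EC
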