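import Pool.Graph.R_seed8.Y729.DB.Norm

/-!
# The discriminant of an extension and the number of the primes above the ramified ones
-/

set_option autoImplicit false

namespace Pool.Agent.H431.EC

open Module NumberField IsDedekindDomain Pool.Agent.Y729.DB

section

variable {k F : Type} [Field k] [NumberField k] [Field F] [NumberField F] [Algebra k F]

attribute [local instance] FractionRing.liftAlgebra FractionRing.isScalarTower_liftAlgebra

/-- the exponents of the primes above `V` in the different -/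
theorem dvd_all (V : Finset (HeightOneSpectrum (𝓞 k)))
    (hV : ∀ P : HeightOneSpectrum (𝓞 F), P.asIdeal ∣ differentIdeal (𝓞 k) (𝓞 F) →
      ∃ v ∈ V, P.asIdeal.comap (algebraMap (𝓞 k) (𝓞 F)) = v.asIdeal)
    (s : HeightOneSpectrum (𝓞 k) → ℕ) (hs0 : ∀ v, s v ≠ 0)
    (hs : ∀ v : HeightOneSpectrum (𝓞 k),
      (((finrank k F).factorial : ℕ) : 𝓞 k) ∉ v.asIdeal ^ (s v))
    (W : Finset (HeightOneSpectrum (𝓞 F)))
    (hW : ∀ w ∈ W, ∃ v ∈ V, w.asIdeal.comap (algebraMap (𝓞 k) (𝓞 F)) = v.asIdeal) :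
    differentIdeal (𝓞 k) (𝓞 F) * ∏ w ∈ W, w.asIdeal ∣
      ∏ v ∈ V, (v.asIdeal.map (algebraMap (𝓞 k) (𝓞 F))) ^ (s v) := by
  classical
  have hD : differentIdeal (𝓞 k) (𝓞 F) ≠ 0 := differentIdeal_ne_bot
  have hfr : finrank (𝓞 k) (𝓞 F) = finrank k F :=
    (IsFractionRing.finrank_eq (𝓞 k) k (𝓞 F) F).symm
  rw [UniqueFactorizationMonoid.dvd_iff_emultiplicity_le
    (mul_ne_zero hD (Finset.prod_ne_zero_iff.2 fun w _ => w.ne_bot))]
  intro P hP
  have hPp : P.IsPrime := Ideal.isPrime_of_prime hP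
  have hPm : P.IsMaximal := hPp.isMaximal hP.ne_zero
  set P' : HeightOneSpectrum (𝓞 F) := ⟨P, hPp, hP.ne_zero⟩ with hP'
  rw [emultiplicity_mul hP, Finset.emultiplicity_prod hP]
  have hQne : ∀ w : HeightOneSpectrum (𝓞 F), w.asIdeal ≠ P → emultiplicity P w.asIdeal = 0 := by
    intro w hw
    rw [emultiplicity_eq_zero]
    intro h
    apply hw
    rw [Ideal.dvd_iff_le] at h
    exact (Ideal.IsMaximal.eq_of_le w.isMaximal hPm.ne_top h)
  by_cases hcase : ∃ v ∈ V, P.comap (algebraMap (𝓞 k) (𝓞 F)) = v.asIdeal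
  · obtain ⟨v0, hv0, hv⟩ := hcase
    have hv0m : v0.asIdeal.IsMaximal := v0.isMaximal
    have hmap0 : v0.asIdeal.map (algebraMap (𝓞 k) (𝓞 F)) ≠ 0 := by
      intro h
      apply v0.ne_bot
      rw [Ideal.zero_eq_bot, Ideal.map_eq_bot_iff_of_injective
        (FaithfulSMul.algebraMap_injective _ _)] at h
      exact h
    have hfin : FiniteMultiplicity P (v0.asIdeal.map (algebraMap (𝓞 k) (𝓞 F))) :=
      FiniteMultiplicity.of_prime_left hP hmap0
    set e : ℕ := multiplicity P (v0.asIdeal.map (algebraMap (𝓞 k) (𝓞 F))) with he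
    have hemul : emultiplicity P (v0.asIdeal.map (algebraMap (𝓞 k) (𝓞 F))) = (e : ℕ∞) :=
      hfin.emultiplicity_eq_multiplicity
    have h1 : ¬ P ^ (e * s v0) ∣ differentIdeal (𝓞 k) (𝓞 F) := by
      refine not_dvd_diff v0.asIdeal (hs0 v0) P hv ?_ ?_ ?_
      · exact pow_multiplicity_dvd _ _
      · exact hfin.not_pow_dvd_of_multiplicity_lt (Nat.lt_succ_self _)
      · rw [hfr]
        exact hs v0
    have h2 : emultiplicity P (differentIdeal (𝓞 k) (𝓞 F)) < ((e * s v0 : ℕ) : ℕ∞) :=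
      emultiplicity_lt_iff_not_dvd.2 h1
    have h3 : ∑ w ∈ W, emultiplicity P w.asIdeal ≤ 1 := by
      have h4 : ∀ w ∈ W, w ≠ P' → emultiplicity P w.asIdeal = 0 := by
        intro w _ hne
        apply hQne
        intro h
        apply hne
        exact HeightOneSpectrum.ext h
      by_cases h5 : P' ∈ W
      · rw [Finset.sum_eq_single_of_mem P' h5 h4]
        exact (FiniteMultiplicity.of_prime_left hP hP.ne_zero).emultiplicity_self.le
      · rw [Finset.sum_eq_zero fun w hw => h4 w hw fun h => h5 (h ▸ hw)]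
        exact zero_le_one
    have h4 : ((e * s v0 : ℕ) : ℕ∞) ≤ emultiplicity P
        (∏ v ∈ V, (v.asIdeal.map (algebraMap (𝓞 k) (𝓞 F))) ^ (s v)) := by
      refine le_trans ?_ (emultiplicity_le_emultiplicity_of_dvd_right
        (Finset.dvd_prod_of_mem _ hv0))
      rw [emultiplicity_pow hP, hemul]
      push_cast
      rw [mul_comm]
    refine le_trans ?_ h4
    calc emultiplicity P (differentIdeal (𝓞 k) (𝓞 F)) + ∑ w ∈ W, emultiplicity P w.asIdeal
        ≤ emultiplicity P (differentIdeal (𝓞 k) (𝓞 F)) + 1 := by gcongr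
      _ ≤ _ := Order.add_one_le_of_lt h2
  · have h1 : emultiplicity P (differentIdeal (𝓞 k) (𝓞 F)) = 0 := by
      rw [emultiplicity_eq_zero]
      intro h
      exact hcase (hV P' h)
    have h2 : ∑ w ∈ W, emultiplicity P w.asIdeal = 0 := by
      refine Finset.sum_eq_zero fun w hw => hQne w ?_
      intro h
      obtain ⟨v, hv, hwv⟩ := hW w hw
      exact hcase ⟨v, hv, by rw [← h, hwv]⟩
    rw [h1, h2]
    exact bot_le

/-- **The discriminant of an extension of number fields.** If the finite set `V` of primes of `k`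
contains the primes which ramify in `F`, then
`log |D_F| ≤ t log |D_k| + (t - 1) ∑_{v ∈ V} log N(v) + t [k : ℚ] log t!`, where `t = [F : k]`. -/
theorem disc_add_le (V : Finset (HeightOneSpectrum (𝓞 k)))
    (hV : ∀ P : HeightOneSpectrum (𝓞 F), P.asIdeal ∣ differentIdeal (𝓞 k) (𝓞 F) →
      ∃ v ∈ V, P.asIdeal.comap (algebraMap (𝓞 k) (𝓞 F)) = v.asIdeal)
    (W : Finset (HeightOneSpectrum (𝓞 F)))
    (hW : ∀ w ∈ W, ∃ v ∈ V, w.asIdeal.comap (algebraMap (𝓞 k) (𝓞 F)) = v.asIdeal) :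
    Real.log |(NumberField.discr F : ℝ)| + ∑ w ∈ W, Real.log (Ideal.absNorm w.asIdeal : ℝ) ≤
      finrank k F * Real.log |(NumberField.discr k : ℝ)| +
      (finrank k F : ℝ) * ∑ v ∈ V, Real.log (Ideal.absNorm v.asIdeal : ℝ) +
      finrank k F * (finrank ℚ k * Real.log ((finrank k F).factorial : ℝ)) := by
  classical
  set t : ℕ := finrank k F with ht
  set T : Ideal (𝓞 k) := Ideal.span {((t.factorial : ℕ) : 𝓞 k)} with hT
  have hT0 : T ≠ 0 := by
    rw [hT, Ideal.zero_eq_bot, Ne, Ideal.span_singleton_eq_bot]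
    exact_mod_cast t.factorial_ne_zero
  have hfin : ∀ v : HeightOneSpectrum (𝓞 k), FiniteMultiplicity v.asIdeal T := fun v =>
    FiniteMultiplicity.of_prime_left v.prime hT0
  set c : HeightOneSpectrum (𝓞 k) → ℕ := fun v => multiplicity v.asIdeal T with hc
  have hdvd := dvd_all V hV (fun v => c v + 1) (fun v => by simp) (fun v => by
    intro h
    have h1 := (hfin v).not_pow_dvd_of_multiplicity_lt (Nat.lt_succ_self _)
    apply h1
    rw [hT, Ideal.dvd_span_singleton]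
    exact h) W hW
  have hprodT : (∏ v ∈ V, v.asIdeal ^ (c v)) ∣ T := by
    refine Finset.prod_dvd_of_coprime ?_ fun v _ => pow_multiplicity_dvd _ _
    intro v _ w _ hvw
    show IsCoprime (v.asIdeal ^ c v) (w.asIdeal ^ c w)
    apply IsCoprime.pow
    rw [Ideal.isCoprime_iff_sup_eq]
    by_contra h
    have h1 : v.asIdeal = v.asIdeal ⊔ w.asIdeal :=
      Ideal.IsMaximal.eq_of_le v.isMaximal h le_sup_left
    have h2 : w.asIdeal = v.asIdeal ⊔ w.asIdeal :=
      Ideal.IsMaximal.eq_of_le w.isMaximal h le_sup_right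
    exact hvw (HeightOneSpectrum.ext (h1.trans h2.symm))
  have hN0 : ∀ v : HeightOneSpectrum (𝓞 k), 0 < Ideal.absNorm v.asIdeal := fun v =>
    Nat.pos_of_ne_zero (fun h => v.ne_bot (Ideal.absNorm_eq_zero_iff.1 h))
  have hN0' : ∀ v : HeightOneSpectrum (𝓞 F), 0 < Ideal.absNorm v.asIdeal := fun v =>
    Nat.pos_of_ne_zero (fun h => v.ne_bot (Ideal.absNorm_eq_zero_iff.1 h))
  -- the sum of the `c v`
  have hsumc : ∑ v ∈ V, (c v : ℝ) * Real.log (Ideal.absNorm v.asIdeal : ℝ) ≤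
      finrank ℚ k * Real.log (t.factorial : ℝ) := by
    have h1 := map_dvd (Ideal.absNorm (S := 𝓞 k)) hprodT
    rw [map_prod, hT, Ideal.absNorm_span_natCast, NumberField.RingOfIntegers.rank] at h1
    have h2 := Nat.le_of_dvd (pow_pos t.factorial_pos _) h1
    have h3 : Real.log ((∏ v ∈ V, Ideal.absNorm (v.asIdeal ^ c v) : ℕ) : ℝ) ≤
        Real.log ((t.factorial ^ finrank ℚ k : ℕ) : ℝ) := by
      refine Real.log_le_log ?_ (by exact_mod_cast h2)
      have : 0 < ∏ v ∈ V, Ideal.absNorm (v.asIdeal ^ c v) :=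
        Finset.prod_pos fun v _ => by rw [map_pow]; exact pow_pos (hN0 v) _
      exact_mod_cast this
    rw [Nat.cast_pow, Real.log_pow, Nat.cast_prod, Real.log_prod] at h3
    · refine le_trans (le_of_eq ?_) h3
      refine Finset.sum_congr rfl fun v _ => ?_
      rw [map_pow, Nat.cast_pow, Real.log_pow]
    · intro v _
      rw [map_pow]
      exact_mod_cast (pow_pos (hN0 v) _).ne'
  -- the norm of the different
  have hD : differentIdeal (𝓞 k) (𝓞 F) ≠ 0 := differentIdeal_ne_bot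
  have hD0 : 0 < Ideal.absNorm (differentIdeal (𝓞 k) (𝓞 F)) :=
    Nat.pos_of_ne_zero (fun h => hD (Ideal.absNorm_eq_zero_iff.1 h))
  have hfr : finrank (𝓞 k) (𝓞 F) = t :=
    (IsFractionRing.finrank_eq (𝓞 k) k (𝓞 F) F).symm
  have hmain : Real.log (Ideal.absNorm (differentIdeal (𝓞 k) (𝓞 F)) : ℝ) +
      ∑ w ∈ W, Real.log (Ideal.absNorm w.asIdeal : ℝ) ≤
      ∑ v ∈ V, (t : ℝ) * ((c v : ℝ) + 1) * Real.log (Ideal.absNorm v.asIdeal : ℝ) := by
    have h1 := map_dvd (Ideal.absNorm (S := 𝓞 F)) hdvd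
    rw [map_mul, map_prod, map_prod] at h1
    have hpos : 0 < ∏ v ∈ V, Ideal.absNorm
        ((v.asIdeal.map (algebraMap (𝓞 k) (𝓞 F))) ^ (c v + 1)) :=
      Finset.prod_pos fun v _ => by
        rw [map_pow, Ideal.absNorm_algebraMap]
        exact pow_pos (pow_pos (hN0 v) _) _
    have h2 := Nat.le_of_dvd hpos h1
    have h3 : Real.log ((Ideal.absNorm (differentIdeal (𝓞 k) (𝓞 F)) *
        ∏ w ∈ W, Ideal.absNorm w.asIdeal : ℕ) : ℝ) ≤
        Real.log ((∏ v ∈ V, Ideal.absNorm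
          ((v.asIdeal.map (algebraMap (𝓞 k) (𝓞 F))) ^ (c v + 1)) : ℕ) : ℝ) := by
      refine Real.log_le_log ?_ (by exact_mod_cast h2)
      have : 0 < Ideal.absNorm (differentIdeal (𝓞 k) (𝓞 F)) *
        ∏ w ∈ W, Ideal.absNorm w.asIdeal :=
        Nat.mul_pos hD0 (Finset.prod_pos fun w _ => hN0' w)
      exact_mod_cast this
    rw [Nat.cast_mul, Real.log_mul (by exact_mod_cast hD0.ne') (by
      exact_mod_cast (Finset.prod_pos fun w _ => hN0' w).ne'), Nat.cast_prod, Nat.cast_prod,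
      Real.log_prod (fun w _ => by exact_mod_cast (hN0' w).ne'),
      Real.log_prod (fun v _ => by
        rw [map_pow, Ideal.absNorm_algebraMap]
        exact_mod_cast (pow_pos (pow_pos (hN0 v) _) _).ne')] at h3
    have h5 : ∑ v ∈ V, Real.log (Ideal.absNorm
          ((v.asIdeal.map (algebraMap (𝓞 k) (𝓞 F))) ^ (c v + 1)) : ℝ) =
        ∑ v ∈ V, (t : ℝ) * ((c v : ℝ) + 1) * Real.log (Ideal.absNorm v.asIdeal : ℝ) := by
      refine Finset.sum_congr rfl fun v _ => ?_
      rw [map_pow, Ideal.absNorm_algebraMap, hfr, Nat.cast_pow, Nat.cast_pow, Real.log_pow,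
        Real.log_pow]
      push_cast
      ring
    rw [h5] at h3
    linarith
  have hsplit : ∑ v ∈ V, (t : ℝ) * ((c v : ℝ) + 1) * Real.log (Ideal.absNorm v.asIdeal : ℝ) =
      t * ∑ v ∈ V, (c v : ℝ) * Real.log (Ideal.absNorm v.asIdeal : ℝ) +
        t * ∑ v ∈ V, Real.log (Ideal.absNorm v.asIdeal : ℝ) := by
    rw [Finset.mul_sum, Finset.mul_sum, ← Finset.sum_add_distrib]
    refine Finset.sum_congr rfl fun v _ => ?_
    ring
  rw [hsplit] at hmain
  have hdisc := natAbs_discr_eq_absNorm_differentIdeal_mul_natAbs_discr_pow k (𝓞 k) F (𝓞 F)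
  have hdF : |(NumberField.discr F : ℝ)| = ((NumberField.discr F).natAbs : ℝ) := by
    rw [Nat.cast_natAbs, Int.cast_abs]
  have hdk : |(NumberField.discr k : ℝ)| = ((NumberField.discr k).natAbs : ℝ) := by
    rw [Nat.cast_natAbs, Int.cast_abs]
  have hk0 : (NumberField.discr k).natAbs ≠ 0 := Int.natAbs_ne_zero.2 (NumberField.discr_ne_zero k)
  rw [hdF, hdk, hdisc, Nat.cast_mul, Nat.cast_pow, Real.log_mul (by exact_mod_cast hD0.ne')
    (by exact_mod_cast pow_ne_zero _ hk0), Real.log_pow]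
  have h6 := mul_le_mul_of_nonneg_left hsumc (Nat.cast_nonneg (α := ℝ) t)
  linarith

end

end Pool.Agent.H431.EC
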