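import Pool.Agent.H431.KU.Prime
import Pool.Agent.H431.EC.Disc

/-!
# Extensions generated by a root of a polynomial with a unit as derivative
-/

set_option autoImplicit false

namespace Pool.Agent.H431.EC

open NumberField IsDedekindDomain Height Pool.Agent.Q290.NF IntermediateField Polynomial
open Pool.Agent.H431.OC

section

variable {k F : Type} [Field k] [NumberField k] [Field F] [NumberField F] [Algebra k F]

/-- a common denominator prime to `v` -/
theorem exists_den (v : HeightOneSpectrum (𝓞 k)) (h : k[X])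
    (hc : ∀ i, v.valuation k (h.coeff i) ≤ 1) :
    ∃ d : 𝓞 k, d ∉ v.asIdeal ∧ ∀ i, ∃ c : 𝓞 k, algebraMap (𝓞 k) k c =
      h.coeff i * algebraMap (𝓞 k) k d := by
  classical
  have H : ∀ i, ∃ d : 𝓞 k, d ∉ v.asIdeal ∧ ∃ c : 𝓞 k, algebraMap (𝓞 k) k c =
      h.coeff i * algebraMap (𝓞 k) k d := by
    intro i
    obtain ⟨n, ⟨d, hd⟩, hnd⟩ := v.exists_primeCompl_mul_eq_of_integer (h.coeff i) (hc i)
    exact ⟨d, hd, n, hnd.symm⟩
  choose d hd c hc' using H
  refine ⟨∏ i ∈ h.support, d i, ?_, fun i => ?_⟩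
  · rw [Ideal.IsPrime.prod_mem_iff]
    rintro ⟨i, -, hi⟩
    exact hd i hi
  · by_cases hi : i ∈ h.support
    · refine ⟨c i * ∏ j ∈ h.support.erase i, d j, ?_⟩
      rw [map_mul, hc', ← Finset.mul_prod_erase _ _ hi, map_mul]
      ring
    · rw [notMem_support_iff] at hi
      exact ⟨0, by rw [hi, map_zero, zero_mul]⟩

/-- **unramified primes** -/
theorem unram_of_deriv (v : HeightOneSpectrum (𝓞 k)) (P : HeightOneSpectrum (𝓞 F))
    (hP : P.asIdeal.comap (algebraMap (𝓞 k) (𝓞 F)) = v.asIdeal) (β : F) (h : k[X])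
    (hm : h.Monic) (hc : ∀ i, v.valuation k (h.coeff i) ≤ 1) (hroot : aeval β h = 0)
    (hadj : k⟮β⟯ = ⊤) (hder : P.valuation F (aeval β (derivative h)) = 1) :
    ¬ P.asIdeal ∣ differentIdeal (𝓞 k) (𝓞 F) := by
  intro hdvd
  obtain ⟨d, hd, hdc⟩ := exists_den v h hc
  have hd0 : d ≠ 0 := by
    rintro rfl
    exact hd (zero_mem _)
  obtain ⟨s, hs⟩ : ∃ s : k, s = algebraMap (𝓞 k) k d := ⟨_, rfl⟩
  have hs0 : s ≠ 0 := by
    rw [hs]
    intro h0
    exact hd0 ((FaithfulSMul.algebraMap_injective (𝓞 k) k) (by rw [h0, map_zero]))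
  have hsF : algebraMap k F s ≠ 0 := (_root_.map_ne_zero _).2 hs0
  -- the polynomial
  obtain ⟨g, hg⟩ : ∃ g : k[X], g = C (s ^ h.natDegree) * h.comp (C s⁻¹ * X) := ⟨_, rfl⟩
  have hgc : ∀ i, g.coeff i = s ^ h.natDegree * (h.coeff i * s⁻¹ ^ i) := by
    intro i
    rw [hg, coeff_C_mul, comp_C_mul_X_coeff]
  obtain ⟨f, hf⟩ : ∃ f : (𝓞 k)[X], f.map (algebraMap (𝓞 k) k) = g := by
    have : g ∈ Polynomial.lifts (algebraMap (𝓞 k) k) := by
      rw [lifts_iff_coeff_lifts]
      intro i
      rw [hgc]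
      rcases lt_trichotomy i h.natDegree with hi | hi | hi
      · obtain ⟨c, hc⟩ := hdc i
        refine ⟨c * d ^ (h.natDegree - i - 1), ?_⟩
        rw [map_mul, map_pow, hc, ← hs]
        have e1 : s ^ h.natDegree = s ^ (h.natDegree - i - 1) * s * s ^ i := by
          rw [← pow_succ, ← pow_add]
          congr 1
          omega
        rw [e1, inv_pow]
        field_simp
      · refine ⟨1, ?_⟩
        rw [hi, hm.coeff_natDegree, map_one, inv_pow]
        field_simp
      · refine ⟨0, ?_⟩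
        rw [coeff_eq_zero_of_natDegree_lt hi, map_zero]
        ring
    obtain ⟨f, hf⟩ := (mem_lifts _).1 this
    exact ⟨f, hf⟩
  have hgd : g.natDegree = h.natDegree := by
    apply le_antisymm
    · refine natDegree_le_iff_coeff_eq_zero.2 fun i hi => ?_
      rw [hgc, coeff_eq_zero_of_natDegree_lt hi]
      ring
    · refine le_natDegree_of_ne_zero ?_
      rw [hgc, hm.coeff_natDegree, one_mul]
      exact mul_ne_zero (pow_ne_zero _ hs0) (pow_ne_zero _ (inv_ne_zero hs0))
  have hgm : g.Monic := by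
    rw [Monic, leadingCoeff, hgd, hgc, hm.coeff_natDegree, inv_pow]
    field_simp
  have hfm : f.Monic := by
    refine Polynomial.monic_of_injective (FaithfulSMul.algebraMap_injective (𝓞 k) k) ?_
    rw [hf]
    exact hgm
  -- the element
  have hgroot : aeval (algebraMap k F s * β) g = 0 := by
    rw [hg, map_mul, aeval_comp, map_mul, aeval_X, aeval_C, aeval_C, map_inv₀,
      inv_mul_cancel_left₀ hsF, hroot, mul_zero]
  have hfroot : eval₂ (algebraMap (𝓞 k) F) (algebraMap k F s * β) f = 0 := by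
    rw [← hf, aeval_map_algebraMap] at hgroot
    exact hgroot
  have hint : IsIntegral ℤ (algebraMap k F s * β) := by
    have h1 : IsIntegral (𝓞 k) (algebraMap k F s * β) := ⟨f, hfm, hfroot⟩
    exact isIntegral_trans _ h1
  obtain ⟨z, hz⟩ : ∃ z : 𝓞 F, (z : F) = algebraMap k F s * β := ⟨⟨_, hint⟩, rfl⟩
  have hadj' : k⟮(z : F)⟯ = ⊤ := by
    rw [← hadj]
    apply le_antisymm
    · rw [adjoin_simple_le_iff, hz]
      exact mul_mem (_root_.algebraMap_mem _ _) (mem_adjoin_simple_self k β)
    · rw [adjoin_simple_le_iff]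
      have h1 : β = (algebraMap k F s)⁻¹ * (z : F) := by
        rw [hz, inv_mul_cancel_left₀ hsF]
      rw [h1]
      exact mul_mem (inv_mem (_root_.algebraMap_mem _ _)) (mem_adjoin_simple_self k (z : F))
  have hmem := Pool.Agent.Y733.VR.deriv_mem k F z hadj' f (by
    apply FaithfulSMul.algebraMap_injective (𝓞 F) F
    rw [map_zero, ← aeval_algebraMap_apply]
    show aeval (z : F) f = 0
    rw [hz]
    exact hfroot)
  have h2 := Ideal.dvd_iff_le.1 hdvd hmem
  rw [← P.valuation_lt_one_iff_mem (K := F)] at h2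
  change P.valuation F (algebraMap (𝓞 F) F (aeval z (derivative f))) < 1 at h2
  have h3 : algebraMap (𝓞 F) F (aeval z (derivative f)) =
      algebraMap k F s ^ h.natDegree * ((algebraMap k F s)⁻¹ *
        aeval β (derivative h)) := by
    rw [← aeval_algebraMap_apply]
    have e1 : aeval (algebraMap (𝓞 F) F z) (derivative f) =
        aeval (algebraMap k F s * β) (derivative g) := by
      rw [← hf, derivative_map, aeval_map_algebraMap]
      congr 1
      rw [← hz]
    rw [e1, hg, derivative_C_mul, derivative_comp, map_mul, map_mul, aeval_comp, derivative_C_mul,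
      derivative_X, mul_one, aeval_C, aeval_C, map_pow, map_mul, aeval_X, aeval_C, map_inv₀,
      inv_mul_cancel_left₀ hsF]
  have hs1 : P.valuation F (algebraMap k F s) = 1 := by
    have e1 : algebraMap k F s = algebraMap (𝓞 F) F (algebraMap (𝓞 k) (𝓞 F) d) := by
      rw [hs]
      rfl
    rw [e1, P.valuation_of_algebraMap]
    refine (P.intValuation_eq_one_iff_mem_primeCompl _).2 ?_
    intro h4
    apply hd
    rw [← hP]
    exact h4
  rw [h3, map_mul, map_mul, map_pow, map_inv₀, hs1, hder, one_pow, inv_one, one_mul, one_mul] at h2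
  exact lt_irrefl _ h2

end

end Pool.Agent.H431.EC
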