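import Pool.Agent.H431.LF.Stage
import Pool.Agent.H431.OC.Push

/-!
# Lifting points of the line with three orbifold points
-/

set_option autoImplicit false

namespace Pool.Agent.H431.EC

open NumberField IsDedekindDomain Height Pool.Agent.Q290.NF IntermediateField
open Pool.Agent.H431.OC Pool.Agent.H431.MT Pool.Agent.H431.LF

/-- the line with the indices `a`, `b`, `c` at `0`, `1`, `∞` -/
noncomputable def Lw (k : Type) [Field k] (a b c : ℕ) : St k where
  pt _ _ _ _ _ t := t ≠ 0 ∧ t ≠ 1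
  wt _ _ _ _ t v := wgt a b c t v

theorem Go.refl {k : Type} [Field k] (S : St k) (κ : ℝ) : Go k S κ S κ := by
  refine Go.same (c := 0) le_rfl (fun n => n) ?_
  intro Ω _ _ _ n T hT
  exact ⟨T, hT, fun M _ _ _ φ b x hb hpt hx => ⟨x, hpt, hx, by simp⟩⟩

section loc

variable {M : Type} [Field M] [NumberField M]

theorem wgt_inv_le {a b c : ℕ} (hb : b ≠ 0) {t : M} (h0 : t ≠ 0) (h1 : t ≠ 1)
    (v : HeightOneSpectrum (𝓞 M)) : wgt a b c t⁻¹ v ≤ wgt c b a t v := by
  unfold wgt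
  rw [ord_inv, neg_neg]
  have e : t⁻¹ - 1 = -(t - 1) / t := by
    field_simp
    ring
  have h10 : t - 1 ≠ 0 := sub_ne_zero.2 h1
  rw [e, ord_div v (neg_ne_zero.2 h10) h0, ord_neg]
  have h4 : om b (ord v (t - 1) - ord v t) ≤ om b (ord v (t - 1)) := by
    by_cases h5 : 0 < ord v (t - 1) - ord v t
    · have h6 : ord v t = 0 := by
        by_contra h7
        rcases lt_or_gt_of_ne h7 with h8 | h8
        · have := (ord_sub_eq v (y := 1) h0 (Or.inr (by rw [ord_one]; exact h8))).1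
          omega
        · have h9 : ord v (t - 1) = 0 := by
            have := (ord_sub_eq v (x := 1) (y := t) one_ne_zero
              (Or.inr (by rw [ord_one]; exact h8))).1
            rw [ord_sub_comm, this, ord_one]
          omega
      rw [h6, sub_zero]
    · rw [om_nonpos _ (not_lt.1 h5)]
      exact om_nonneg hb _
  linarith

theorem wgt_sub_le {a b c : ℕ} (hc : c ≠ 0) (t : M) (v : HeightOneSpectrum (𝓞 M)) :
    wgt a b c (1 - t) v ≤ wgt b a c t v := by
  unfold wgt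
  have e : 1 - t - 1 = -t := by ring
  rw [e, ord_neg, ord_sub_comm v 1 t]
  have h4 : om c (-ord v (t - 1)) ≤ om c (-ord v t) := by
    by_cases h5 : 0 < -ord v (t - 1)
    · by_cases h0 : t = 0
      · rw [h0, zero_sub, ord_neg, ord_one] at h5
        exact absurd h5 (by norm_num)
      · have h6 : ord v t < 0 := by
          by_contra h7
          have := sub_nonneg' v (not_lt.1 h7) (y := 1) (by rw [ord_one])
          omega
        have := (ord_sub_eq v (y := 1) h0 (Or.inr (by rw [ord_one]; exact h6))).1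
        rw [this]
    · rw [om_nonpos _ (not_lt.1 h5)]
      exact om_nonneg hc _
  linarith

theorem wgt_pull_le {q r : ℕ} (hq : q ≠ 0) (hr : r ≠ 0) {t : M} (ht0 : t ≠ 0) (ht1 : t ≠ 1)
    (v : HeightOneSpectrum (𝓞 M)) (hv2 : ord v (2 : M) = 0) :
    wgt 2 q (2 * r) ((2 * t - 1) ^ 2) v ≤ wgt q q r t v := by
  have ht10 : t - 1 ≠ 0 := sub_ne_zero.2 ht1
  unfold wgt
  have e2 : (2 * t - 1) ^ 2 - 1 = 2 ^ 2 * (t * (t - 1)) := by ring
  have o1 : ord v ((2 * t - 1) ^ 2 - 1) = ord v t + ord v (t - 1) := by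
    rw [e2, ord_mul v (by norm_num) (mul_ne_zero ht0 ht10), ord_pow, hv2,
      ord_mul v ht0 ht10]
    ring
  have o2 : ord v ((2 * t - 1) ^ 2) = 2 * ord v (2 * t - 1) := by
    rw [ord_pow]
    norm_num
  rw [o1, o2]
  have p1 : om 2 (2 * ord v (2 * t - 1)) = 0 := om_two_even (even_two_mul _)
  have p2 : om (2 * r) (-(2 * ord v (2 * t - 1))) = om r (-ord v (2 * t - 1)) := by
    rw [← om_double hr]
    congr 1
    ring
  have hneg : ord v t < 0 → ord v (t - 1) = ord v t := fun h5 =>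
    (ord_sub_eq v (y := 1) ht0 (Or.inr (by rw [ord_one]; exact h5))).1
  have hposi : 0 < ord v t → ord v (t - 1) = 0 := fun h5 => by
    have := (ord_sub_eq v (x := 1) (y := t) one_ne_zero (Or.inr (by rw [ord_one]; exact h5))).1
    rw [ord_sub_comm, this, ord_one]
  have p3 : om r (-ord v (2 * t - 1)) ≤ om r (-ord v t) := by
    by_cases h5 : 0 < -ord v (2 * t - 1)
    · have h6 : ord v t < 0 := by
        by_contra h7
        have h8 := sub_nonneg' v (x := 2 * t) (y := 1)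
          (mul_nonneg' v hv2.ge (not_lt.1 h7)) (by rw [ord_one])
        omega
      have h9 : ord v (2 * t) = ord v t := by rw [ord_mul v two_ne_zero ht0, hv2, zero_add]
      have := (ord_sub_eq v (x := 2 * t) (y := 1) (mul_ne_zero two_ne_zero ht0)
        (Or.inr (by rw [ord_one, h9]; exact h6))).1
      rw [this, h9]
    · rw [om_nonpos _ (not_lt.1 h5)]
      exact om_nonneg hr _
  have p4 : om q (ord v t + ord v (t - 1)) ≤ om q (ord v t) + om q (ord v (t - 1)) := by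
    have n1 := om_nonneg hq (ord v t)
    have n2 := om_nonneg hq (ord v (t - 1))
    rcases lt_trichotomy (ord v t) 0 with h5 | h5 | h5
    · have h6 := hneg h5
      rw [om_nonpos q (by omega : ord v t + ord v (t - 1) ≤ 0)]
      linarith
    · rw [h5, zero_add]
      rw [om_nonpos q (le_refl (0 : ℤ)), zero_add]
    · rw [hposi h5, add_zero]
      rw [om_nonpos q (le_refl (0 : ℤ)), add_zero]
  rw [p1, p2]
  linarith

/-- the local inequality for the square root -/
theorem wgt_push {E : Type} [Field E] [NumberField E] [Algebra M E] {q r : ℕ} (hq : q ≠ 0)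
    (hr : r ≠ 0) {u : M} {z t : E} (hz : z ^ 2 = algebraMap M E u) (ht : t = (1 + z) / 2)
    (ht0 : t ≠ 0) (ht1 : t - 1 ≠ 0) (v : HeightOneSpectrum (𝓞 M)) (w : HeightOneSpectrum (𝓞 E))
    (e : ℕ) (he : e ≠ 0) (hv2 : ord v (2 : M) = 0)
    (hvw : ∀ z : M, ord w (algebraMap M E z) = e * ord v z) :
    (Even (ord v u) → wgt q q r t w ≤ e * wgt 2 q (2 * r) u v) ∧
    (Odd (ord v u) → e = 2 → 1 + wgt q q r t w ≤ 2 * wgt 2 q (2 * r) u v) := by
  have h2r : 2 * r ≠ 0 := mul_ne_zero two_ne_zero hr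
  have h2E : (2 : E) ≠ 0 := two_ne_zero
  have htz : z = 2 * t - 1 := by
    rw [ht]
    ring
  have htt : 2 ^ 2 * (t * (t - 1)) = algebraMap M E u - 1 := by
    rw [← hz, htz]
    ring
  have hg1 := om_nonneg (m := 2) two_ne_zero (ord v u)
  have hg2 := om_nonneg hq (ord v (u - 1))
  have hg3 := om_nonneg h2r (-ord v u)
  have hg0 := wgt_nonneg two_ne_zero hq h2r u v
  have he1 : (1 : ℝ) ≤ e := by exact_mod_cast Nat.one_le_iff_ne_zero.2 he
  have hge : wgt 2 q (2 * r) u v ≤ e * wgt 2 q (2 * r) u v := by nlinarith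
  have hw2 : ord w (2 : E) = 0 := by
    have := hvw 2
    rw [map_ofNat, hv2, mul_zero] at this
    exact this
  have hoz : 2 * ord w z = e * ord v u := by
    rw [← hvw, ← hz, ord_pow]
    norm_num
  have hot : ord w t + ord w (t - 1) = e * ord v (u - 1) := by
    rw [← hvw, map_sub, map_one, ← htt, ord_mul w (by norm_num) (mul_ne_zero ht0 ht1),
      ord_pow, hw2, ord_mul w ht0 ht1]
    ring
  have hez : (0 : ℤ) < e := by exact_mod_cast Nat.pos_of_ne_zero he
  rcases lt_or_ge (ord v u) 0 with hneg | hpos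
  · -- a pole
    have hoz0 : ord w z < 0 := by nlinarith
    have hz0 : z ≠ 0 := by
      rintro rfl
      rw [ord_zero] at hoz0
      exact lt_irrefl _ hoz0
    have o1 : ord w t = ord w z := by
      have h5 := (ord_add_eq w (x := z) (y := 1) hz0 (Or.inr (by rw [ord_one]; exact hoz0)))
      rw [ht, ord_div w (by rw [add_comm]; exact h5.2) h2E, hw2, sub_zero, add_comm, h5.1]
    have o2 : ord w (t - 1) = ord w z := by
      have h5 := (ord_sub_eq w (x := z) (y := 1) hz0 (Or.inr (by rw [ord_one]; exact hoz0)))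
      have e5 : t - 1 = (z - 1) / 2 := by
        rw [ht]
        ring
      rw [e5, ord_div w h5.2 h2E, hw2, sub_zero, h5.1]
    have hf : wgt q q r t w = om r (-ord w z) := by
      unfold wgt
      rw [o1, o2, om_nonpos q hoz0.le]
      ring
    have hgl : om (2 * r) (-ord v u) ≤ wgt 2 q (2 * r) u v := by
      unfold wgt
      linarith
    refine ⟨fun hev => ?_, fun hodd he2 => ?_⟩
    · obtain ⟨m, hm⟩ := hev
      have o3 : -ord w z = e * (-m) := by
        rw [hm] at hoz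
        linarith
      rw [hf, o3]
      have h6 := om_mul_le hr he (-m)
      have h7 : om (2 * r) (-ord v u) = om r (-m) := by
        rw [← om_double hr, hm]
        congr 1
        ring
      linarith
    · have o3 : ord w z = ord v u := by
        rw [he2] at hoz
        push_cast at hoz
        linarith
      rw [hf, o3]
      have h6 := om_odd hr (n := -ord v u) (by linarith) hodd.neg
      linarith
  · have hoz0 : 0 ≤ ord w z := by nlinarith
    have o1 : 0 ≤ ord w t := by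
      rw [ht]
      have h5 := add_nonneg' w (x := 1) (y := z) (by rw [ord_one]) hoz0
      have h6 : 0 ≤ ord w (2⁻¹ : E) := by rw [ord_inv, hw2, neg_zero]
      have := mul_nonneg' w h5 h6
      rwa [← div_eq_mul_inv] at this
    have o2 : 0 ≤ ord w (t - 1) := sub_nonneg' w o1 (by rw [ord_one])
    have hf : wgt q q r t w ≤ om q (ord v (u - 1)) := by
      unfold wgt
      rw [om_nonpos r (by linarith)]
      have h6 := om_mul_le hq he (ord v (u - 1))
      rw [← hot] at h6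
      rcases eq_or_lt_of_le o1 with h7 | h7
      · rw [← h7, zero_add] at h6
        rw [← h7, om_nonpos q le_rfl]
        linarith
      · have h8 : ord w (t - 1) = 0 := by
          have := (ord_sub_eq w (x := 1) (y := t) one_ne_zero
            (Or.inr (by rw [ord_one]; exact h7))).1
          rw [ord_sub_comm, this, ord_one]
        rw [h8, add_zero] at h6
        rw [h8, om_nonpos q (le_refl (0 : ℤ))]
        linarith
    refine ⟨fun hev => ?_, fun hodd he2 => ?_⟩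
    · have : om q (ord v (u - 1)) ≤ wgt 2 q (2 * r) u v := by
        unfold wgt
        linarith
      linarith
    · have hpos' : 0 < ord v u := by
        rcases eq_or_lt_of_le hpos with h7 | h7
        · rw [← h7] at hodd
          exact absurd hodd (by decide)
        · exact h7
      have h8 : ord v (u - 1) = 0 := by
        have := (ord_sub_eq v (x := 1) (y := u) one_ne_zero
          (Or.inr (by rw [ord_one]; exact hpos'))).1
        rw [ord_sub_comm, this, ord_one]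
      rw [h8, om_nonpos q (le_refl (0 : ℤ))] at hf
      have h9 := om_two_odd hpos' hodd
      have : om 2 (ord v u) ≤ wgt 2 q (2 * r) u v := by
        unfold wgt
        linarith
      linarith

end loc

variable {k : Type} [Field k]

theorem lw_inv {a b c : ℕ} (hb : b ≠ 0) (κ : ℝ) :
    Go k (Lw k c b a) κ (Lw k a b c) κ := by
  classical
  refine Go.same (c := 0) le_rfl (fun n => n) ?_
  intro Ω _ _ _ n T hT
  refine ⟨T.image (·⁻¹), Finset.card_image_le.trans hT, fun M _ _ _ φ β t hβ hpt ht => ?_⟩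
  refine ⟨t⁻¹, ⟨inv_ne_zero hpt.1, inv_ne_one.2 hpt.2⟩, fun h => ht ?_, ?_⟩
  · rw [Finset.mem_image]
    exact ⟨φ t⁻¹, h, by rw [map_inv₀, inv_inv]⟩
  · have h3 := bw_mono (M := M) hβ (g := wgt a b c t⁻¹) (h := wgt c b a t) (u := fun _ => 0)
      (supp_wgt _ _ _ _) (supp_wgt _ _ _ _) supp_zero
      (fun v _ => (wgt_inv_le hb hpt.1 hpt.2 v).trans (by linarith)) (fun _ => le_rfl)
    rw [sm_zero, add_zero] at h3
    show κ * logHeight₁ t - DD M - sm (bw β (wgt c b a t)) ≤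
      κ * logHeight₁ t⁻¹ - DD M - sm (bw β (wgt a b c t⁻¹)) + Module.finrank ℚ M * 0
    rw [logHeight₁_inv]
    linarith

theorem lw_sub {a b c : ℕ} (hc : c ≠ 0) (κ : ℝ) :
    Go k (Lw k b a c) κ (Lw k a b c) κ := by
  classical
  have hl : 0 ≤ Real.log 2 := Real.log_nonneg (by norm_num)
  refine Go.same (c := |κ| * Real.log 2) (by positivity) (fun n => n) ?_
  intro Ω _ _ _ n T hT
  refine ⟨T.image (1 - ·), Finset.card_image_le.trans hT, fun M _ _ _ φ β t hβ hpt ht => ?_⟩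
  refine ⟨1 - t, ⟨fun h => hpt.2 (by linear_combination -h), fun h => hpt.1 (by
    linear_combination -h)⟩, fun h => ht ?_, ?_⟩
  · rw [Finset.mem_image]
    exact ⟨φ (1 - t), h, by rw [map_sub, map_one]; ring⟩
  · have h3 := bw_mono (M := M) hβ (g := wgt a b c (1 - t)) (h := wgt b a c t) (u := fun _ => 0)
      (supp_wgt _ _ _ _) (supp_wgt _ _ _ _) supp_zero
      (fun v _ => (wgt_sub_le hc t v).trans (by linarith)) (fun _ => le_rfl)
    rw [sm_zero, add_zero] at h3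
    show κ * logHeight₁ t - DD M - sm (bw β (wgt b a c t)) ≤
      κ * logHeight₁ (1 - t) - DD M - sm (bw β (wgt a b c (1 - t))) +
        Module.finrank ℚ M * (|κ| * Real.log 2)
    have h5 := ht_sub (1 : M) t
    rw [logHeight₁_one, zero_add] at h5
    have h6 := ht_sub (1 : M) (1 - t)
    rw [logHeight₁_one, zero_add] at h6
    have e2 : (1 : M) - (1 - t) = t := by ring
    rw [e2] at h6
    have h7 := abs_shift (κ := κ) h6 h5
    linarith

theorem lw_drop {a b c d : ℕ} (ha : a ≠ 0) (hd : d ≠ 0) (κ : ℝ) :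
    Go k (Lw k a b c) κ (Lw k (a * d) b c) (κ + (1 / a - 1 / (a * d))) := by
  refine Go.same (c := 0) le_rfl (fun n => n) ?_
  intro Ω _ _ _ n T hT
  refine ⟨T, hT, fun M _ _ _ φ β t hβ hpt ht => ⟨t, hpt, ht, ?_⟩⟩
  have ha' : (0 : ℝ) < a := by exact_mod_cast Nat.pos_of_ne_zero ha
  have hd' : (1 : ℝ) ≤ d := by exact_mod_cast Nat.one_le_iff_ne_zero.2 hd
  have hδ : (0 : ℝ) ≤ 1 / a - 1 / (a * d) := by
    rw [sub_nonneg]
    refine div_le_div_of_nonneg_left zero_le_one ha' ?_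
    nlinarith
  have h3 := bw_mono (M := M) hβ (g := wgt (a * d) b c t) (h := wgt a b c t)
    (u := fun v => (1 / a - 1 / (a * d)) * max 0 (ord v t : ℝ))
    (supp_wgt _ _ _ _) (supp_wgt _ _ _ _) (supp_smul _ (supp_zeros t))
    (fun v _ => by
      have := om_drop ha hd (ord v t)
      unfold wgt
      linarith) (fun v => mul_nonneg hδ (le_max_left _ _))
  rw [sm_smul] at h3
  have h4 := mul_le_mul_of_nonneg_left (zeros_le t) hδ
  show κ * logHeight₁ t - DD M - sm (bw β (wgt a b c t)) ≤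
    (κ + (1 / a - 1 / (a * d))) * logHeight₁ t - DD M - sm (bw β (wgt (a * d) b c t)) +
      Module.finrank ℚ M * 0
  linarith

theorem lw_pull [NumberField k] {q r : ℕ} (hq : q ≠ 0) (hr : r ≠ 0) (κ : ℝ) :
    Go k (Lw k q q r) κ (Lw k 2 q (2 * r)) (κ / 2) := by
  classical
  have hl : 0 ≤ Real.log 2 := Real.log_nonneg (by norm_num)
  refine Go.same (c := 3 * Real.log 2 + |κ| * (2 * Real.log 2)) (by positivity)
    (fun n => n * 2 + 1) ?_
  intro Ω _ _ _ n T hT
  have cΩ : CharZero Ω := charZero_of_injective_algebraMap (algebraMap k Ω).injective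
  obtain ⟨T1, hT1, H1⟩ := excl (T := T) 2 hT
    (fun τ => (Polynomial.C 2 * Polynomial.X - 1) ^ 2 - Polynomial.C τ) (fun τ h => by
        have h1 := congrArg (Polynomial.eval 0) h
        have h2 := congrArg (Polynomial.eval 2) h
        simp only [Polynomial.eval_sub, Polynomial.eval_pow, Polynomial.eval_one,
          Polynomial.eval_X, Polynomial.eval_mul, Polynomial.eval_C, Polynomial.eval_zero] at h1 h2
        have h3 : (8 : Ω) = 0 := by
          linear_combination h2 - h1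
        exact absurd h3 (by norm_num)) (fun τ => by compute_degree)
  refine ⟨T1 ∪ {1 / 2}, card_add hT1 (Finset.card_singleton _).le, ?_⟩
  intro M _ _ _ φ β t hβ hpt ht
  rw [Finset.mem_union, not_or, Finset.mem_singleton] at ht
  obtain ⟨ht0, ht1⟩ := hpt
  have ht10 : t - 1 ≠ 0 := sub_ne_zero.2 ht1
  have hth : 2 * t - 1 ≠ 0 := by
    intro h
    apply ht.2
    have h1 : t = 1 / 2 := by linear_combination (1 / 2) * h
    rw [h1, map_div₀, map_one, map_ofNat]
  refine ⟨(2 * t - 1) ^ 2, ⟨pow_ne_zero 2 hth, fun h => ?_⟩, fun h => ht.1 (H1 _ h _ ?_), ?_⟩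
  · have h1 : 4 * (t * (t - 1)) = 0 := by linear_combination h
    exact mul_ne_zero (by norm_num) (mul_ne_zero ht0 ht10) h1
  · simp only [Polynomial.eval_sub, Polynomial.eval_pow, Polynomial.eval_one,
      Polynomial.eval_X, Polynomial.eval_mul, Polynomial.eval_C]
    rw [map_pow, map_sub, map_mul, map_ofNat, map_one, sub_self]
  · have h3 := bw_bad (M := M) two_ne_zero (B := 3) (by norm_num) hβ
      (g := wgt 2 q (2 * r) ((2 * t - 1) ^ 2)) (h := wgt q q r t) (u := fun _ => 0)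
      (supp_wgt _ _ _ _) (supp_wgt _ _ _ _) supp_zero
      (fun v hv _ => (wgt_pull_le hq hr ht0 ht1 v (by exact_mod_cast hv)).trans (by linarith))
      (fun v => wgt_le _ _ _ _ v) (fun v => wgt_nonneg hq hq hr t v) (fun _ => le_rfl)
    rw [sm_zero, add_zero, Nat.cast_ofNat] at h3
    show κ * logHeight₁ t - DD M - sm (bw β (wgt q q r t)) ≤
      κ / 2 * logHeight₁ ((2 * t - 1) ^ 2) - DD M -
        sm (bw β (wgt 2 q (2 * r) ((2 * t - 1) ^ 2))) +
        Module.finrank ℚ M * (3 * Real.log 2 + |κ| * (2 * Real.log 2))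
    rw [logHeight₁_pow]
    have h4 : κ * logHeight₁ t ≤ κ * logHeight₁ (2 * t - 1) +
        |κ| * (Module.finrank ℚ M * (2 * Real.log 2)) := by
      refine abs_shift ?_ (ht_two_mul_sub t)
      have h5 := ht_half_add (2 * t - 1)
      have e3 : (1 + (2 * t - 1)) / 2 = t := by ring
      rwa [e3] at h5
    push_cast
    linarith

theorem lw_push {q r : ℕ} (hq : q ≠ 0) (hr : r ≠ 0) (κ : ℝ) :
    Go k (Lw k 2 q (2 * r)) κ (Lw k q q r) (2 * κ) := by
  classical
  have hl : 0 ≤ Real.log 2 := Real.log_nonneg (by norm_num)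
  have h2r : 2 * r ≠ 0 := mul_ne_zero two_ne_zero hr
  refine ⟨2, 5 * Real.log 2 + |κ| * (4 * Real.log 2), fun n => n, by positivity, ?_⟩
  intro Ω _ _ _ n T hT
  refine ⟨T.image fun τ => (2 * τ - 1) ^ 2, Finset.card_image_le.trans hT, ?_⟩
  intro M _ _ _ φ β u hβ hpt hu
  obtain ⟨hu0, hu1⟩ := hpt
  obtain ⟨E, i1, i2, i3, z, hz, hdeg, hadj⟩ := exists_quad M u
  let _ : Algebra k E := ((algebraMap M E).comp (algebraMap k M)).toAlgebra
  have hst : IsScalarTower k M E := IsScalarTower.of_algebraMap_eq fun _ => rfl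
  obtain ⟨ψ, hψ⟩ := ext_hom (k := k) (M := M) (E := E) Ω φ
  obtain ⟨m, hm⟩ : ∃ m : ℝ, m = (Module.finrank M E : ℝ) := ⟨_, rfl⟩
  have hm0 : 0 ≤ m := by
    rw [hm]
    exact Nat.cast_nonneg _
  have hdE : (Module.finrank ℚ E : ℝ) = Module.finrank ℚ M * m := by
    rw [hm]
    exact_mod_cast (Module.finrank_mul_finrank ℚ M E).symm
  obtain ⟨t, ht⟩ : ∃ t : E, t = (1 + z) / 2 := ⟨_, rfl⟩
  have htz : z = 2 * t - 1 := by
    rw [ht]
    ring
  have huE : algebraMap M E u - 1 ≠ 0 := by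
    intro h0
    apply hu1
    apply (algebraMap M E).injective
    rw [map_one]
    linear_combination h0
  have htt : 2 ^ 2 * (t * (t - 1)) = algebraMap M E u - 1 := by
    rw [← hz, htz]
    ring
  have ht0 : t ≠ 0 := by
    rintro rfl
    rw [zero_mul, mul_zero] at htt
    exact huE htt.symm
  have ht1 : t - 1 ≠ 0 := by
    intro h0
    rw [h0, mul_zero, mul_zero] at htt
    exact huE htt.symm
  refine ⟨E, i1, i2, i3, inferInstance, hst, ψ, t, hψ, hdeg, ⟨ht0, sub_ne_zero.1 ht1⟩,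
    fun h => hu ?_, ?_⟩
  · rw [Finset.mem_image]
    refine ⟨ψ t, h, ?_⟩
    rw [← hψ, ← hz, htz, map_pow, map_sub, map_mul, map_ofNat, map_one]
  · have hβE : algebraMap M E β ≠ 0 := (_root_.map_ne_zero _).2 hβ
    have q1 := bw_quad z u hu0 hz hadj (N := 1) one_ne_zero (B := 3) (by norm_num) hβ
      (f := wgt q q r t) (g := wgt 2 q (2 * r) u) (supp_wgt _ _ _ _) (supp_wgt _ _ _ _)
      (fun w => wgt_nonneg hq hq hr t w) (fun w => wgt_le _ _ _ _ w)
      (fun v => wgt_nonneg two_ne_zero hq h2r u v) (fun v w e he hv2 _ _ hvw =>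
        wgt_push hq hr hz ht ht0 ht1 v w e he hv2 hvw)
    show (Module.finrank M E : ℝ) *
      (κ * logHeight₁ u - DD M - sm (bw β (wgt 2 q (2 * r) u))) ≤
      2 * κ * logHeight₁ t - DD E - sm (bw (algebraMap M E β) (wgt q q r t)) +
        Module.finrank ℚ E * (5 * Real.log 2 + |κ| * (4 * Real.log 2))
    rw [← hm] at q1 ⊢
    rw [Nat.cast_one, Real.log_one] at q1
    rw [hdE]
    have h4 : 2 * logHeight₁ z = m * logHeight₁ u := by
      rw [hm, ← ht_ext, ← hz, logHeight₁_pow]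
      norm_num
    have h5 := ht_two_mul_sub t
    rw [← htz, hdE] at h5
    have h6 := ht_half_add z
    rw [← ht, hdE] at h6
    have h7 := abs_shift (κ := κ) h5 h6
    have e1 : κ * (m * logHeight₁ u) = 2 * (κ * logHeight₁ z) := by
      rw [← h4]
      ring
    have e2 : m * (κ * logHeight₁ u - DD M - sm (bw β (wgt 2 q (2 * r) u))) =
      κ * (m * logHeight₁ u) - m * (DD M + sm (bw β (wgt 2 q (2 * r) u))) := by ring
    rw [e2, e1]
    have e3 : m * (DD M + sm (bw β (wgt 2 q (2 * r) u)) +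
        Module.finrank ℚ M * (3 * 0 + (3 + 2) * Real.log 2)) =
        m * (DD M + sm (bw β (wgt 2 q (2 * r) u))) +
        Module.finrank ℚ M * m * (5 * Real.log 2) := by ring
    rw [e3] at q1
    have e4 : (Module.finrank ℚ M : ℝ) * m * (5 * Real.log 2 + |κ| * (4 * Real.log 2)) =
      Module.finrank ℚ M * m * (5 * Real.log 2) +
      2 * (|κ| * (Module.finrank ℚ M * m * (2 * Real.log 2))) := by ring
    rw [e4]
    linarith

/-- points of the line with the indices `a`, `b`, `c` can be lifted to points of the line with the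
indices `4`, `4`, `4` -/
def Vw (k : Type) [Field k] (s : ℝ) (a b c : ℕ) : Prop :=
  ∀ ε : ℝ, Go k (Lw k a b c) (1 - 1 / (a : ℝ) - 1 / (b : ℝ) - 1 / (c : ℝ) - s * ε)
    (Lw k 4 4 4) (1 / 4 - ε)

theorem Vw_inv {s : ℝ} {a b c : ℕ} (hb : b ≠ 0) (h : Vw k s a b c) : Vw k s c b a := by
  intro ε
  refine Go.trans ?_ (h ε)
  have e : 1 - 1 / (c : ℝ) - 1 / (b : ℝ) - 1 / (a : ℝ) - s * ε =
    1 - 1 / (a : ℝ) - 1 / (b : ℝ) - 1 / (c : ℝ) - s * ε := by ring
  rw [e]
  exact lw_inv hb _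

theorem Vw_sub {s : ℝ} {a b c : ℕ} (hc : c ≠ 0) (h : Vw k s a b c) : Vw k s b a c := by
  intro ε
  refine Go.trans ?_ (h ε)
  have e : 1 - 1 / (b : ℝ) - 1 / (a : ℝ) - 1 / (c : ℝ) - s * ε =
    1 - 1 / (a : ℝ) - 1 / (b : ℝ) - 1 / (c : ℝ) - s * ε := by ring
  rw [e]
  exact lw_sub hc _

theorem Vw_drop {s : ℝ} {a b c d : ℕ} (ha : a ≠ 0) (hd : d ≠ 0) (h : Vw k s (a * d) b c) :
    Vw k s a b c := by
  intro ε
  refine Go.trans ?_ (h ε)
  have h1 := lw_drop (k := k) (b := b) (c := c) ha hd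
    (1 - 1 / (a : ℝ) - 1 / (b : ℝ) - 1 / (c : ℝ) - s * ε)
  have e : 1 - 1 / (a : ℝ) - 1 / (b : ℝ) - 1 / (c : ℝ) - s * ε +
    (1 / (a : ℝ) - 1 / ((a : ℝ) * d)) =
    1 - 1 / ((a * d : ℕ) : ℝ) - 1 / (b : ℝ) - 1 / (c : ℝ) - s * ε := by
    push_cast
    ring
  rwa [e] at h1

theorem Vw_pull [NumberField k] {s : ℝ} {q r : ℕ} (hq : q ≠ 0) (hr : r ≠ 0)
    (h : Vw k s 2 q (2 * r)) : Vw k (2 * s) q q r := by
  intro ε
  refine Go.trans ?_ (h ε)
  have h1 := lw_pull (k := k) hq hr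
    (1 - 1 / (q : ℝ) - 1 / (q : ℝ) - 1 / (r : ℝ) - 2 * s * ε)
  have e : (1 - 1 / (q : ℝ) - 1 / (q : ℝ) - 1 / (r : ℝ) - 2 * s * ε) / 2 =
    1 - 1 / ((2 : ℕ) : ℝ) - 1 / (q : ℝ) - 1 / ((2 * r : ℕ) : ℝ) - s * ε := by
    have hr' : (r : ℝ) ≠ 0 := by exact_mod_cast hr
    have hq' : (q : ℝ) ≠ 0 := by exact_mod_cast hq
    push_cast
    field_simp
    ring
  rwa [e] at h1

theorem Vw_push {s : ℝ} {q r : ℕ} (hq : q ≠ 0) (hr : r ≠ 0)
    (h : Vw k s q q r) : Vw k (s / 2) 2 q (2 * r) := by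
  intro ε
  refine Go.trans ?_ (h ε)
  have h1 := lw_push (k := k) hq hr
    (1 - 1 / ((2 : ℕ) : ℝ) - 1 / (q : ℝ) - 1 / ((2 * r : ℕ) : ℝ) - s / 2 * ε)
  have e : 2 * (1 - 1 / ((2 : ℕ) : ℝ) - 1 / (q : ℝ) - 1 / ((2 * r : ℕ) : ℝ) - s / 2 * ε) =
    1 - 1 / (q : ℝ) - 1 / (q : ℝ) - 1 / (r : ℝ) - s * ε := by
    have hr' : (r : ℝ) ≠ 0 := by exact_mod_cast hr
    have hq' : (q : ℝ) ≠ 0 := by exact_mod_cast hq
    push_cast
    field_simp
    ring
  rwa [e] at h1

theorem Vw_base : Vw k 1 4 4 4 := by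
  intro ε
  have e : 1 - 1 / ((4 : ℕ) : ℝ) - 1 / ((4 : ℕ) : ℝ) - 1 / ((4 : ℕ) : ℝ) - 1 * ε =
    1 / 4 - ε := by
    push_cast
    ring
  rw [e]
  exact Go.refl _ _

theorem Vw_step [NumberField k] {s : ℝ} {m : ℕ} (hm : m ≠ 0)
    (h : Vw k s (2 * (4 * m)) (2 * (4 * m)) (4 * m)) :
    Vw k (2 * s) (2 * (8 * m)) (2 * (8 * m)) (8 * m) := by
  have a1 : 4 * m ≠ 0 := by omega
  have a2 : 2 * (4 * m) ≠ 0 := by omega
  have a3 : 8 * m ≠ 0 := by omega
  have a4 : 2 * (8 * m) ≠ 0 := by omega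
  have a5 : 2 * m ≠ 0 := by omega
  have h1 : Vw k s (4 * m) (2 * (4 * m)) (4 * m) :=
    Vw_drop (d := 2) a1 two_ne_zero (by rwa [mul_comm (4 * m) 2])
  have h2 : Vw k s (2 * (4 * m)) (4 * m) (4 * m) := Vw_sub a1 h1
  have h3 : Vw k s (4 * m) (4 * m) (2 * (4 * m)) := Vw_inv a1 h2
  have h4 : Vw k (s / 2) 2 (4 * m) (2 * (2 * (4 * m))) := Vw_push a1 a2 h3
  have e1 : 2 * (2 * (4 * m)) = 2 * (8 * m) := by ring
  rw [e1] at h4
  have h5 : Vw k (s / 2) (4 * m) 2 (2 * (8 * m)) := Vw_sub a4 h4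
  have h6 : Vw k (s / 2) (2 * (8 * m)) 2 (4 * m) := Vw_inv two_ne_zero h5
  have h7 : Vw k (s / 2) 2 (2 * (8 * m)) (4 * m) := Vw_sub a1 h6
  have h8 : Vw k s (2 * (8 * m)) (2 * (8 * m)) (2 * m) := by
    have e2 : 4 * m = 2 * (2 * m) := by ring
    rw [e2] at h7
    have h8 := Vw_pull a4 a5 h7
    have e3 : 2 * (s / 2) = s := by ring
    rwa [e3] at h8
  have h9 : Vw k s (2 * m) (2 * (8 * m)) (2 * (8 * m)) := Vw_inv a4 h8
  have h10 : Vw k s 2 (2 * (8 * m)) (2 * (8 * m)) := Vw_drop (d := m) two_ne_zero hm h9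
  exact Vw_pull a4 a3 h10

theorem Vw_all [NumberField k] : ∀ j : ℕ,
    Vw k (2 ^ (j + 1)) (2 * (4 * 2 ^ j)) (2 * (4 * 2 ^ j)) (4 * 2 ^ j) := by
  intro j
  induction j with
  | zero =>
    have h4 : (4 : ℕ) ≠ 0 := by norm_num
    have h8 : (8 : ℕ) ≠ 0 := by norm_num
    have h1 : Vw k (1 / 2) 2 4 (2 * 4) := Vw_push h4 h4 Vw_base
    have h2 : Vw k (1 / 2) 4 2 (2 * 4) := Vw_sub (by norm_num) h1
    have h3 : Vw k (1 / 2) (2 * 4) 2 4 := Vw_inv two_ne_zero h2
    have h5 : Vw k (1 / 2) 2 8 (2 * 2) := Vw_sub (by norm_num) h3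
    have h6 : Vw k (2 * (1 / 2)) 8 8 2 := Vw_pull h8 two_ne_zero h5
    have h7 : Vw k (2 * (1 / 2)) 2 8 (2 * 4) := Vw_inv h8 h6
    have h9 := Vw_pull h8 h4 h7
    have e : (2 : ℝ) * (2 * (1 / 2)) = 2 ^ (0 + 1) := by norm_num
    rw [e] at h9
    simpa using h9
  | succ j ih =>
    have h1 := Vw_step (m := 2 ^ j) (pow_ne_zero _ two_ne_zero) ih
    have e : 8 * 2 ^ j = 4 * 2 ^ (j + 1) := by ring
    have e2 : (2 : ℝ) * 2 ^ (j + 1) = 2 ^ (j + 1 + 1) := by ring
    rwa [e, e2] at h1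

theorem Vw_diag [NumberField k] (j : ℕ) :
    Vw k (2 ^ (j + 1)) (4 * 2 ^ j) (4 * 2 ^ j) (4 * 2 ^ j) := by
  have a1 : 4 * 2 ^ j ≠ 0 := mul_ne_zero (by norm_num) (pow_ne_zero _ two_ne_zero)
  have h1 := Vw_all (k := k) j
  have h2 : Vw k (2 ^ (j + 1)) (4 * 2 ^ j) (2 * (4 * 2 ^ j)) (4 * 2 ^ j) :=
    Vw_drop (d := 2) a1 two_ne_zero (by rwa [mul_comm (4 * 2 ^ j) 2])
  have h3 := Vw_sub a1 h2
  exact Vw_drop (d := 2) a1 two_ne_zero (by rwa [mul_comm (4 * 2 ^ j) 2])

/-- the points of the towers as points of the line with three indices -/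
theorem go_Lw {a b c : ℕ} (κ : ℝ) : Go k (T0 k) κ (Lw k a b c) κ := by
  have hl : 0 ≤ Real.log 2 := Real.log_nonneg (by norm_num)
  refine Go.same (c := 3 * Real.log 2) (by positivity) (fun n => n) ?_
  intro Ω _ _ _ n T hT
  refine ⟨T, hT, fun M _ _ _ φ β t hβ hpt ht => ⟨t, ⟨hpt.1, hpt.2.1⟩, ht, ?_⟩⟩
  have h1 := bw_bad (M := M) two_ne_zero (B := 3) (by norm_num) hβ (g := wgt a b c t)
    (h := (T0 k).wt M t) (u := fun _ => 0) (supp_wgt _ _ _ _)
    (by unfold T0; simp) supp_zero (fun v hv hvb => ?_) (fun v => wgt_le _ _ _ _ v)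
    (fun v => le_rfl) (fun v => le_rfl)
  · rw [sm_zero, Nat.cast_ofNat] at h1
    show κ * logHeight₁ t - DD M - sm (bw β ((T0 k).wt M t)) ≤
      κ * logHeight₁ t - DD M - sm (bw β (wgt a b c t)) + Module.finrank ℚ M * (3 * Real.log 2)
    linarith
  · have hv2 : ord v (2 : M) = 0 := by exact_mod_cast hv
    obtain ⟨h2, h3⟩ := hpt.2.2.2 v hv2 hvb
    show om a (ord v t) + om b (ord v (t - 1)) + om c (-ord v t) ≤ 0 + 0
    rw [h2, h3, om_nonpos _ (le_refl (0 : ℤ)), om_nonpos _ (le_refl (0 : ℤ)),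
      om_nonpos _ (by simp : -(0 : ℤ) ≤ 0)]
    norm_num

/-- **the points of the towers as points of the line with the indices `4`, `4`, `4`**, with a
constant that tends to `1` -/
theorem go_sharp [NumberField k] (j : ℕ) (ε : ℝ) :
    Go k (T0 k) (1 - 3 / (4 * 2 ^ j) - 2 ^ (j + 1) * ε) (Ln k (om 4)) (1 / 4 - ε) := by
  have h1 := (go_Lw (k := k) (1 - 1 / ((4 * 2 ^ j : ℕ) : ℝ) - 1 / ((4 * 2 ^ j : ℕ) : ℝ) -
    1 / ((4 * 2 ^ j : ℕ) : ℝ) - 2 ^ (j + 1) * ε)).trans (Vw_diag (k := k) j ε)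
  have e : 1 - 1 / ((4 * 2 ^ j : ℕ) : ℝ) - 1 / ((4 * 2 ^ j : ℕ) : ℝ) -
    1 / ((4 * 2 ^ j : ℕ) : ℝ) - 2 ^ (j + 1) * ε = 1 - 3 / (4 * 2 ^ j) - 2 ^ (j + 1) * ε := by
    push_cast
    ring
  rw [e] at h1
  refine h1.trans (Go.same (c := 0) le_rfl (fun n => n) ?_)
  intro Ω _ _ _ n T hT
  exact ⟨T, hT, fun M _ _ _ φ β t hβ hpt ht => ⟨t, trivial, ht, by
    rw [mul_zero, add_zero]
    exact le_rfl⟩⟩

end Pool.Agent.H431.EC
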