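import Pool.Agent.H431.EC.Wc

/-!
# Closed hyperelliptic curves, with the sharp constant
-/

set_option autoImplicit false

namespace Pool.Agent.H431.EC

open NumberField IsDedekindDomain Height Pool.Agent.Q290.NF IntermediateField
open Pool.Agent.H431.OC Pool.Agent.H431.MT Pool.Agent.H431.LF Polynomial

variable {k : Type} [Field k] [NumberField k]

/-- **hyperelliptic curves**, odd degree -/
theorem chain_zeroV {c : k} (hc : c ≠ 0) {s : Finset k} (hodd : Odd s.card) (h5 : 5 ≤ s.card)
    {κt ε : ℝ} (hε : ε ≤ 3 / 64) (hg : ∀ (F : Type) [Field F] [NumberField F],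
      Go F (T0 F) κt (Ln F (om 4)) (1 / 4 - 4 * ε)) :
    ∃ (F : Type) (_ : Field F) (_ : NumberField F) (_ : Algebra k F) (s' : Finset F),
      Go F (T0 F) κt (Cv (fun _ => 0) (algebraMap k F c) s')
        (((s.card : ℝ) - 3) / 2 - ε) ∧ ∀ (M : Type) [Field M] [Algebra k M] [Algebra F M]
          [IsScalarTower k F M] (x : M), ∏ e ∈ s', (x - algebraMap F M e) =
            ∏ e ∈ s, (x - algebraMap k M e) := by
  classical
  obtain ⟨t, hts, ht4⟩ := Finset.exists_subset_card_eq (show 4 ≤ s.card by omega)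
  obtain ⟨mu, t', hmu, rfl, ht3⟩ := Finset.card_eq_succ.1 ht4
  obtain ⟨e1, e2, e3, h12, h13, h23, rfl⟩ := Finset.card_eq_three.1 ht3
  obtain ⟨r, hr⟩ : ∃ r, r = s \ insert mu {e1, e2, e3} := ⟨_, rfl⟩
  have hrc : r.card = s.card - 4 := by
    rw [hr, Finset.card_sdiff_of_subset hts, ht4]
  have hrodd : Odd r.card := by
    rw [hrc]
    obtain ⟨m, hm⟩ := hodd
    exact ⟨m - 2, by omega⟩
  have hmr : mu ∉ r := by
    rw [hr, Finset.mem_sdiff, not_and, not_not]
    intro _
    exact Finset.mem_insert_self _ _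
  have hm1 : mu ≠ e1 := fun h => hmu (by rw [h]; simp)
  have hm2 : mu ≠ e2 := fun h => hmu (by rw [h]; simp)
  have hm3 : mu ≠ e3 := fun h => hmu (by rw [h]; simp)
  obtain ⟨F, iF, nF, aF, sig, hsig, -, -⟩ :=
    exists_quad k ((mu - e1) * (mu - e2) * (mu - e3))
  have inj := (algebraMap k F).injective
  have hs0 : sig ≠ 0 := by
    rintro rfl
    have h1 : algebraMap k F ((mu - e1) * (mu - e2) * (mu - e3)) = 0 := by
      rw [← hsig]
      ring
    rw [map_eq_zero] at h1
    exact mul_ne_zero (mul_ne_zero (sub_ne_zero.2 hm1) (sub_ne_zero.2 hm2))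
      (sub_ne_zero.2 hm3) h1
  refine ⟨F, iF, nF, aF, s.image (algebraMap k F), ?_, ?_⟩
  · have hprod : ∀ (M : Type) [Field M] [Algebra F M] (X : M),
        ∏ e ∈ s.image (algebraMap k F), (X - algebraMap F M e) =
          (X - algebraMap F M (algebraMap k F e1)) * ((X - algebraMap F M (algebraMap k F e2)) *
          ((X - algebraMap F M (algebraMap k F e3)) * ((X - algebraMap F M (algebraMap k F mu)) *
            ∏ e ∈ r.image (algebraMap k F), (X - algebraMap F M e)))) := by
      intro M _ _ X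
      rw [Finset.prod_image inj.injOn, Finset.prod_image inj.injOn, ← Finset.prod_sdiff hts, ← hr,
        Finset.prod_insert hmu, Finset.prod_insert (by simp [h12, h13]),
        Finset.prod_insert (by simp [h23]), Finset.prod_singleton]
      ring
    have d12 : algebraMap k F e1 ≠ algebraMap k F e2 := fun h => h12 (inj h)
    have d13 : algebraMap k F e1 ≠ algebraMap k F e3 := fun h => h13 (inj h)
    have d23 : algebraMap k F e2 ≠ algebraMap k F e3 := fun h => h23 (inj h)
    have g1 := hg F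
    have g2 := go_lin Pw_om (algebraMap k F e3) d12 (1 / 4 - 4 * ε)
    have e4 : 1 / 4 - 4 * ε + 3 / 4 = 4 * (1 / 4 - ε) := by ring
    rw [e4] at g2
    have g3 := go_dup Pw_om d12 d13 d23 (κ := 1 / 4 - ε) (by linarith)
    have g4 := go_root Pw_om (algebraMap k F e1) (algebraMap k F e2) (algebraMap k F e3)
      (1 / 4 - ε)
    have g5 := go_pair (k := F) (e1 := algebraMap k F e1) (e2 := algebraMap k F e2)
      (e3 := algebraMap k F e3) (mu := algebraMap k F mu) (sig := sig)
      (by rw [hsig]; simp only [map_mul, map_sub]) hs0 (ε := ε) (by linarith)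
    have g6 := go_zero (k := F) (c := algebraMap k F c) (e1 := algebraMap k F e1)
      (e2 := algebraMap k F e2) (e3 := algebraMap k F e3) (mu := algebraMap k F mu)
      ((_root_.map_ne_zero _).2 hc) (r := r.image (algebraMap k F))
      (by rwa [Finset.card_image_of_injective _ inj])
      (by
        rw [Finset.mem_image]
        rintro ⟨b, hb, hb'⟩
        exact hmr (inj hb' ▸ hb)) hprod (1 / 2 - ε)
    have e5 : (1 / 2 - ε) + ((r.image (algebraMap k F)).card : ℝ) / 2 =
        ((s.card : ℝ) - 3) / 2 - ε := by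
      rw [Finset.card_image_of_injective _ inj, hrc, Nat.cast_sub (by omega)]
      push_cast
      ring
    rw [e5] at g6
    exact ((((g1.trans g2).trans g3).trans g4).trans g5).trans g6
  · intro M _ _ _ _ x
    rw [Finset.prod_image inj.injOn]
    refine Finset.prod_congr rfl fun e _ => ?_
    rw [IsScalarTower.algebraMap_apply k F M]

theorem exists_zero_splitV {f : k[X]} (hsep : f.Separable) (hs : f.Splits)
    (h5 : 5 ≤ f.natDegree) {κt ε : ℝ} (hε : ε ≤ 3 / 64) (hg : ∀ (F : Type) [Field F] [NumberField F],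
      Go F (T0 F) κt (Ln F (om 4)) (1 / 4 - 4 * ε)) :
    ∃ (F : Type) (_ : Field F) (_ : NumberField F) (_ : Algebra k F),
      Go F (T0 F) κt (Cf (fun _ => 0) (f.map (algebraMap k F)))
        ((((f.natDegree - 1) / 2 : ℕ) : ℝ) - 1 - ε) := by
  classical
  have hf0 : f ≠ 0 := by
    rintro rfl
    simp at h5
  obtain ⟨R, hR, hprod⟩ := roots_of hsep hs
  have hlc : f.leadingCoeff ≠ 0 := leadingCoeff_ne_zero.2 hf0
  rcases Nat.even_or_odd f.natDegree with hev | hodd
  · -- even degree
    obtain ⟨e0, he0⟩ : R.Nonempty := by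
      rw [← Finset.card_pos, hR]
      omega
    have hinj : Set.InjOn (fun e : k => (e - e0)⁻¹) (R.erase e0) := by
      intro a _ b _ hab
      have h1 : (a - e0)⁻¹ = (b - e0)⁻¹ := hab
      have h2 := inv_injective h1
      linear_combination h2
    obtain ⟨s, hs⟩ : ∃ s, s = (R.erase e0).image (fun e => (e - e0)⁻¹) := ⟨_, rfl⟩
    have hsc : s.card = f.natDegree - 1 := by
      rw [hs, Finset.card_image_of_injOn hinj, Finset.card_erase_of_mem he0, hR]
    obtain ⟨m, hm⟩ := hev
    have hc0 : ∏ e ∈ R.erase e0, (e0 - e) ≠ 0 := by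
      rw [Finset.prod_ne_zero_iff]
      intro e he
      exact sub_ne_zero.2 (Finset.ne_of_mem_erase he).symm
    obtain ⟨c, hc⟩ : ∃ c, c = f.leadingCoeff * ∏ e ∈ R.erase e0, (e0 - e) := ⟨_, rfl⟩
    obtain ⟨F, i1, i2, i3, s', hgo, hs'⟩ := chain_zeroV (c := c) (by
      rw [hc]
      exact mul_ne_zero hlc hc0) (s := s) ⟨m - 1, by omega⟩ (by omega) hε hg
    refine ⟨F, i1, i2, i3, ?_⟩
    have e1 : ((s.card : ℝ) - 3) / 2 - ε = (((f.natDegree - 1) / 2 : ℕ) : ℝ) - 1 - ε := by
      have e1 : (f.natDegree - 1) / 2 = m - 1 := by omega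
      have e2 : s.card = 2 * (m - 1) + 1 := by omega
      rw [e1, e2]
      push_cast
      ring
    rw [e1] at hgo
    refine hgo.trans (go_inv (e0 := algebraMap k F e0) (fun M _ _ x y hx hxy => ?_) _)
    let _ : Algebra k M := ((algebraMap F M).comp (algebraMap k F)).toAlgebra
    have : IsScalarTower k F M := IsScalarTower.of_algebraMap_eq fun _ => rfl
    obtain ⟨E0, hE0⟩ : ∃ E0, E0 = algebraMap k M e0 := ⟨_, rfl⟩
    have hE0' : algebraMap F M (algebraMap k F e0) = E0 := by rw [hE0]; rfl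
    rw [hE0', aeval_map_algebraMap]
    rw [hs' M x] at hxy
    have hcc : algebraMap F M (algebraMap k F c) = algebraMap k M c := rfl
    rw [hcc] at hxy
    refine ⟨y / x ^ m, ?_⟩
    symm
    rw [hprod M, ← Finset.mul_prod_erase R _ he0, div_pow, hxy, hs, Finset.prod_image hinj, hc,
      map_mul, map_prod, ← hE0]
    have e1 : ∀ e ∈ R.erase e0, E0 + x⁻¹ - algebraMap k M e =
        algebraMap k M (e0 - e) *
          (x - algebraMap k M ((e - e0)⁻¹)) * x⁻¹ := by
      intro e he
      have h1 : algebraMap k M e - E0 ≠ 0 := by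
        rw [hE0, ← map_sub]
        exact (_root_.map_ne_zero _).2 (sub_ne_zero.2 (Finset.ne_of_mem_erase he))
      rw [map_inv₀, map_sub, map_sub, ← hE0]
      field_simp
      ring
    rw [Finset.prod_congr rfl e1, Finset.prod_mul_distrib, Finset.prod_mul_distrib,
      Finset.prod_const, Finset.card_erase_of_mem he0, hR]
    have e2 : E0 + x⁻¹ - E0 = x⁻¹ := by ring
    have e3 : (x ^ m) ^ 2 = x ^ (f.natDegree - 1) * x := by
      rw [← pow_mul, ← pow_succ]
      congr 1
      omega
    rw [e2, e3, inv_pow]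
    field_simp
  · obtain ⟨F, i1, i2, i3, s', hgo, hs'⟩ := chain_zeroV (c := f.leadingCoeff) hlc
      (s := R) (by rwa [hR]) (by omega) hε hg
    refine ⟨F, i1, i2, i3, ?_⟩
    obtain ⟨m, hm⟩ := hodd
    have e1 : (f.natDegree - 1) / 2 = m := by omega
    have e2 : (((R.card : ℝ) - 3) / 2 - ε) = ((((f.natDegree - 1) / 2 : ℕ) : ℝ) - 1 - ε) := by
      rw [e1, hR, hm]
      push_cast
      ring
    rw [e2] at hgo
    refine Cv_Cf (fun M _ _ x => ?_) hgo
    let _ : Algebra k M := ((algebraMap F M).comp (algebraMap k F)).toAlgebra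
    have : IsScalarTower k F M := IsScalarTower.of_algebraMap_eq fun _ => rfl
    rw [aeval_map_algebraMap, hprod M, hs' M x]
    rfl

/-- **hyperelliptic curves**, `D = 0` -/
theorem exists_zeroV {f : k[X]} (hf : Squarefree f) (h5 : 5 ≤ f.natDegree) {κt ε : ℝ}
    (hε : ε ≤ 3 / 64) (hg : ∀ (F : Type) [Field F] [NumberField F],
      Go F (T0 F) κt (Ln F (om 4)) (1 / 4 - 4 * ε)) :
    ∃ (F : Type) (_ : Field F) (_ : NumberField F) (_ : Algebra k F),
      Go F (T0 F) κt (Cf (fun _ => 0) (f.map (algebraMap k F)))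
        ((((f.natDegree - 1) / 2 : ℕ) : ℝ) - 1 - ε) := by
  have hsep : f.Separable := PerfectField.separable_iff_squarefree.2 hf
  have nF : NumberField f.SplittingField := NumberField.of_module_finite k f.SplittingField
  obtain ⟨F, i1, i2, i3, h⟩ := exists_zero_splitV (k := f.SplittingField)
    (f := f.map (algebraMap k f.SplittingField)) hsep.map (SplittingField.splits f)
    (by rwa [natDegree_map]) hε hg
  let _ : Algebra k F := ((algebraMap f.SplittingField F).comp
    (algebraMap k f.SplittingField)).toAlgebra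
  refine ⟨F, i1, i2, inferInstance, ?_⟩
  rw [natDegree_map, Polynomial.map_map] at h
  exact h


/-- **hyperelliptic curves**, `D = 0`, with a constant that tends to `1` -/
theorem exists_zero_sharp {f : k[X]} (hf : Squarefree f) (h5 : 5 ≤ f.natDegree) {ε : ℝ}
    (hε : ε ≤ 3 / 64) (j : ℕ) :
    ∃ (F : Type) (_ : Field F) (_ : NumberField F) (_ : Algebra k F),
      Go F (T0 F) (1 - 3 / (4 * 2 ^ j) - 2 ^ (j + 3) * ε)
        (Cf (fun _ => 0) (f.map (algebraMap k F)))
        ((((f.natDegree - 1) / 2 : ℕ) : ℝ) - 1 - ε) := by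
  refine exists_zeroV hf h5 hε fun F _ _ => ?_
  have h := go_sharp (k := F) j (4 * ε)
  have e : (2 : ℝ) ^ (j + 1) * (4 * ε) = 2 ^ (j + 3) * ε := by ring
  rwa [e] at h

end Pool.Agent.H431.EC
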